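import Pool.Agent.Q113.MS.Stm

/-!
# Project MS, jobs MED, MAIN, FIN: assembly
-/

set_option autoImplicit false

namespace Pool.Agent.Q224.MS

open Finset Pool.Agent.Q113.MS

/-- reduction to zero sum -/
theorem zero_red (c : ℕ) (κ : ℝ) (hc : 1 ≤ c)
    (h : ∀ (α : Type) [DecidableEq α] (V : Finset α) (k : ℕ) (x : α → ℝ),
      2 ≤ k → c * k ≤ V.card → ∑ i ∈ V, x i = 0 →
      κ * (k : ℝ) * (V.card.choose k : ℝ) ≤ (V.card : ℝ) * (NN V k x : ℝ)) : MMC c κ := by
  intro α _ V k x hk hn hs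
  have hn0 : 0 < V.card := lt_of_lt_of_le (Nat.mul_pos hc (by omega)) hn
  have hn0' : (V.card : ℝ) ≠ 0 := by exact_mod_cast hn0.ne'
  set μ : ℝ := (∑ i ∈ V, x i) / V.card with hμ
  have hμ0 : 0 ≤ μ := div_nonneg hs (by positivity)
  have h1 := h α V k (fun i => x i - μ) hk hn (by
    rw [Finset.sum_sub_distrib, Finset.sum_const, nsmul_eq_mul, hμ, mul_div_cancel₀ _ hn0', sub_self])
  refine h1.trans ?_
  have h2 : NN V k (fun i => x i - μ) ≤ NN V k x := by
    unfold NN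
    apply Finset.card_le_card
    intro S hS
    rw [Finset.mem_filter] at hS ⊢
    refine ⟨hS.1, hS.2.trans ?_⟩
    apply Finset.sum_le_sum
    intro i _
    show x i - μ ≤ x i
    linarith
  exact mul_le_mul_of_nonneg_left (by exact_mod_cast h2) (by positivity)

theorem case_ndl {K N Cc M κ φ : ℝ} (hK : 0 < K) (hκ : 0 ≤ κ) (hM : 0 ≤ M)
    (hD : κ * (3 * K + φ * (N - 34 / 7 * K)) ≤ 927 / 2000 * N)
    (h : (927 / 2000 : ℝ) * Cc ≤ (3 + φ * (N / K - 34 / 7)) * M) :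
    κ * K * Cc ≤ N * M := by
  have e : K * ((3 + φ * (N / K - 34 / 7)) * M) = (3 * K + φ * (N - 34 / 7 * K)) * M := by
    field_simp
  have h1 := mul_le_mul_of_nonneg_left h hK.le
  rw [e] at h1
  have h2 := mul_le_mul_of_nonneg_left h1 hκ
  have h3 := mul_le_mul_of_nonneg_right hD hM
  have e2 : κ * (K * (927 / 2000 * Cc)) = 927 / 2000 * (κ * K * Cc) := by ring
  have e3 : κ * ((3 * K + φ * (N - 34 / 7 * K)) * M) = κ * (3 * K + φ * (N - 34 / 7 * K)) * M := by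
    ring
  rw [e2, e3] at h2
  have h4 := h2.trans h3
  have e4 : 927 / 2000 * N * M = 927 / 2000 * (N * M) := by ring
  rw [e4] at h4
  linarith

theorem case_A {K N Cc M κ φ : ℝ} (hK : 0 < K) (hKN : K ≤ N) (hC : 0 ≤ Cc)
    (hD0 : 0 < 3 * K + φ * (N - 1 - 34 / 7 * K))
    (hD : κ * (3 * K + φ * (N - 1 - 34 / 7 * K)) ≤ 927 / 2000 * (N - K))
    (h : (927 / 2000 : ℝ) * ((N - K) / N * Cc) ≤ (3 + φ * ((N - 1) / K - 34 / 7)) * M) :
    κ * K * Cc ≤ N * M := by
  have hN : 0 < N := hK.trans_le hKN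
  have h1 : (927 / 2000 : ℝ) * ((N - K) * (K * Cc)) ≤
      N * ((3 * K + φ * (N - 1 - 34 / 7 * K)) * M) := by
    have h0 := mul_le_mul_of_nonneg_left h (mul_pos hN hK).le
    have e1 : N * K * ((927 / 2000 : ℝ) * ((N - K) / N * Cc)) =
        (927 / 2000 : ℝ) * ((N - K) * (K * Cc)) := by
      field_simp
    have e2 : N * K * ((3 + φ * ((N - 1) / K - 34 / 7)) * M) =
        N * ((3 * K + φ * (N - 1 - 34 / 7 * K)) * M) := by
      field_simp
    rw [e1, e2] at h0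
    exact h0
  have h2 := mul_le_mul_of_nonneg_right hD (mul_nonneg hK.le hC)
  have h3 : (κ * K * Cc) * (3 * K + φ * (N - 1 - 34 / 7 * K)) ≤
      (N * M) * (3 * K + φ * (N - 1 - 34 / 7 * K)) := by
    have e1 : (κ * K * Cc) * (3 * K + φ * (N - 1 - 34 / 7 * K)) =
        κ * (3 * K + φ * (N - 1 - 34 / 7 * K)) * (K * Cc) := by ring
    have e2 : (N * M) * (3 * K + φ * (N - 1 - 34 / 7 * K)) =
        N * ((3 * K + φ * (N - 1 - 34 / 7 * K)) * M) := by ring
    have e3 : 927 / 2000 * (N - K) * (K * Cc) = (927 / 2000 : ℝ) * ((N - K) * (K * Cc)) := by ring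
    rw [e1, e2]
    exact h2.trans (e3.le.trans h1)
  exact le_of_mul_le_mul_right h3 hD0

theorem case_B {K N Cc M κ ψ p0 q0 : ℝ} (hK : 0 < K) (hN1 : 1 < N) (hC : 0 ≤ Cc) (hψ : 0 ≤ ψ)
    (hp : K ≤ p0 * N) (hp0 : 0 ≤ p0) (hq : q0 * (N - 1) ≤ N - K) (hq0 : 0 ≤ q0)
    (hw : κ ≤ q0 * (1 / (1 + p0 * ψ) + 927 / 2000))
    (h : (K * (N - K)) / (N * (N - 1)) * (1 / (1 + K / N * ψ) + 927 / 2000) * Cc ≤ M) :
    κ * K * Cc ≤ N * M := by
  have hN : 0 < N := by linarith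
  have hN2 : 0 < N - 1 := by linarith
  have hpp : K / N ≤ p0 := by rw [div_le_iff₀ hN]; exact hp
  have hKN : 0 ≤ K / N := div_nonneg hK.le hN.le
  have h1 : 1 / (1 + p0 * ψ) ≤ 1 / (1 + K / N * ψ) := by
    apply one_div_le_one_div_of_le
    · have := mul_nonneg hKN hψ
      linarith
    · have := mul_le_mul_of_nonneg_right hpp hψ
      linarith
  have h2 : q0 ≤ (N - K) / (N - 1) := by rw [le_div_iff₀ hN2]; exact hq
  have h0 : 0 ≤ 1 / (1 + p0 * ψ) := by
    have := mul_nonneg hp0 hψ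
    positivity
  generalize 1 / (1 + K / N * ψ) = w at h h1
  have h3 : κ ≤ (N - K) / (N - 1) * (w + 927 / 2000) := by
    refine hw.trans (mul_le_mul h2 (by linarith) (by linarith) (hq0.trans h2))
  calc κ * K * Cc = κ * (K * Cc) := by ring
    _ ≤ (N - K) / (N - 1) * (w + 927 / 2000) * (K * Cc) :=
        mul_le_mul_of_nonneg_right h3 (mul_nonneg hK.le hC)
    _ = N * ((K * (N - K)) / (N * (N - 1)) * (w + 927 / 2000) * Cc) := by
        field_simp
    _ ≤ N * M := mul_le_mul_of_nonneg_left h hN.le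

theorem case_C {K N Cc M κ G G0 p0 q1 q2 : ℝ} (hK : 0 < K) (hN1 : 1 < N) (hC : 0 ≤ Cc)
    (hp : K ≤ p0 * N) (hp0 : 0 ≤ p0) (hq1 : q1 * N ≤ N - K) (hq10 : 0 ≤ q1)
    (hq2 : q2 * (N - 1) ≤ N - K - 1) (hq20 : 0 ≤ q2) (hG0 : 0 ≤ G0) (hG : G0 ≤ G)
    (hw : κ ≤ q1 * q2 * (G0 / (1 + p0 * G0)))
    (h : (N - K) * (N - K - 1) / (N * (N - 1)) * (K / N * G / (1 + K / N * G)) * Cc ≤ M) :
    κ * K * Cc ≤ N * M := by
  have hN : 0 < N := by linarith
  have hN2 : 0 < N - 1 := by linarith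
  have hpp : K / N ≤ p0 := by rw [div_le_iff₀ hN]; exact hp
  have hKN : 0 ≤ K / N := div_nonneg hK.le hN.le
  have hGn : 0 ≤ G := hG0.trans hG
  have hd1 : 0 < 1 + K / N * G := by
    have := mul_nonneg hKN hGn
    linarith
  have hd2 : 0 < 1 + p0 * G0 := by
    have := mul_nonneg hp0 hG0
    linarith
  have h1 : G0 / (1 + p0 * G0) ≤ G / (1 + K / N * G) := by
    rw [div_le_div_iff₀ hd2 hd1]
    have h5 := mul_le_mul_of_nonneg_right hpp (mul_nonneg hG0 hGn)
    nlinarith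
  have h2 : q1 ≤ (N - K) / N := by rw [le_div_iff₀ hN]; exact hq1
  have h2' : q2 ≤ (N - K - 1) / (N - 1) := by rw [le_div_iff₀ hN2]; exact hq2
  have h0 : 0 ≤ G0 / (1 + p0 * G0) := div_nonneg hG0 hd2.le
  have e : K / N * G / (1 + K / N * G) = K / N * (G / (1 + K / N * G)) := by
    rw [mul_div_assoc]
  rw [e] at h
  generalize G / (1 + K / N * G) = w at h h1
  have h3 : κ ≤ (N - K) / N * ((N - K - 1) / (N - 1)) * w := by
    refine hw.trans (mul_le_mul (mul_le_mul h2 h2' hq20 (hq10.trans h2)) h1 h0 ?_)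
    exact mul_nonneg (hq10.trans h2) (hq20.trans h2')
  calc κ * K * Cc = κ * (K * Cc) := by ring
    _ ≤ (N - K) / N * ((N - K - 1) / (N - 1)) * w * (K * Cc) :=
        mul_le_mul_of_nonneg_right h3 (mul_nonneg hK.le hC)
    _ = N * ((N - K) * (N - K - 1) / (N * (N - 1)) * (K / N * w) * Cc) := by
        field_simp
    _ ≤ N * M := mul_le_mul_of_nonneg_left h hN.le

theorem core (hNDL : S_NDL) (hNEG : S_NEG) (c : ℕ) (κ φ φ' g1 g2 q1 q2 G0 p0 t : ℝ)
    (hc9 : 9 ≤ c) (hκ : 0 ≤ κ)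
    (hφ' : 0 < φ') (hφφ : φ' ≤ φ) (hφ2 : φ ≤ 1 / 2) (hg1 : 0 < g1) (hg2 : 0 < g2)
    (hg1' : g1 ^ 2 * ((1 - φ) * (1 - φ')) ≤ φ) (hg2' : g2 ^ 2 * (1 - φ') ≤ φ')
    (hP : ∀ (α : Type) [DecidableEq α] (V : Finset α) (k : ℕ) (x : α → ℝ) (a : α),
      2 ≤ k → c * k ≤ V.card → ∑ i ∈ V, x i = 0 → a ∈ V → 0 < x a →
      φ * ∑ i ∈ V, x i ^ 2 < x a ^ 2 →
      κ * (k : ℝ) * (V.card.choose k : ℝ) ≤ (V.card : ℝ) * (NN V k x : ℝ))
    (hp0 : 0 ≤ p0) (hq1 : 0 ≤ q1) (hq2 : 0 ≤ q2) (hG0 : 0 ≤ G0)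
    (hD1 : ∀ K N : ℝ, 2 ≤ K → c * K ≤ N →
      κ * (3 * K + φ * (N - 34 / 7 * K)) ≤ 927 / 2000 * N)
    (hD2 : ∀ K N : ℝ, 2 ≤ K → c * K ≤ N →
      0 < 3 * K + φ' * (N - 1 - 34 / 7 * K) ∧
      κ * (3 * K + φ' * (N - 1 - 34 / 7 * K)) ≤ 927 / 2000 * (N - K))
    (hq1c : ∀ K N : ℝ, 2 ≤ K → c * K ≤ N → q1 * N ≤ N - K ∧ K ≤ p0 * N)
    (hq2c : ∀ K N : ℝ, 2 ≤ K → c * K ≤ N → q2 * (N - 1) ≤ N - K - 1 ∧ t * (N - 1) ≤ N - 2)
    (ht : 0 ≤ t) (hGt : G0 ≤ (g1 * t + g2) ^ 2)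
    (hwB : κ ≤ q1 * (1 / (1 + p0 * (1 / φ' - 1)) + 927 / 2000))
    (hwC : κ ≤ q1 * q2 * (G0 / (1 + p0 * G0))) : MMC c κ := by
  apply zero_red c κ (by omega)
  intro α _ V k x hk hn hs
  have hnn : 2 ≤ V.card := by nlinarith
  have h9 : 9 * k ≤ V.card := le_trans (Nat.mul_le_mul_right k hc9) hn
  have hKr : (2 : ℝ) ≤ (k : ℝ) := by exact_mod_cast hk
  have hNr : (c : ℝ) * (k : ℝ) ≤ (V.card : ℝ) := by exact_mod_cast hn
  have h9r : 9 * (k : ℝ) ≤ (V.card : ℝ) := by exact_mod_cast h9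
  have hK0 : (0 : ℝ) < k := by linarith
  have hN1 : (1 : ℝ) < V.card := by linarith
  have hM : (0 : ℝ) ≤ (NN V k x : ℝ) := by positivity
  have hC : (0 : ℝ) ≤ (V.card.choose k : ℝ) := by positivity
  have hQ : 0 ≤ ∑ i ∈ V, x i ^ 2 := Finset.sum_nonneg fun i _ => sq_nonneg _
  have hφ0 : 0 ≤ φ := hφ'.le.trans hφφ
  by_cases hA : ∀ i ∈ V, x i ^ 2 ≤ φ * ∑ j ∈ V, x j ^ 2
  · have hm : (∑ j ∈ V, x j) / (V.card : ℝ) = 0 := by rw [hs, zero_div]
    have h1 := hNDL α V k x φ hk (by omega) hφ0 hφ2 hs.ge (by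
      intro i hi
      rw [hm]
      simp only [sub_zero]
      exact hA i hi)
    exact case_ndl hK0 hκ hM (hD1 _ _ hKr hNr) h1
  · by_cases hB : ∃ a ∈ V, 0 < x a ∧ φ * ∑ i ∈ V, x i ^ 2 < x a ^ 2
    · obtain ⟨a, ha, hxa, hq⟩ := hB
      exact hP α V k x a hk hn hs ha hxa hq
    · push Not at hA hB
      obtain ⟨h, hh, hlt⟩ := hA
      have hneg : x h < 0 := by
        rcases lt_trichotomy (x h) 0 with h0 | h0 | h0
        · exact h0
        · exfalso
          rw [h0] at hlt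
          have := mul_nonneg hφ0 hQ
          norm_num at hlt
          linarith
        · exact absurd hlt (not_lt.2 (hB h hh h0))
      rcases hNEG α V k x h φ φ' g1 g2 hk h9 hφ' hφφ hφ2 hs hh hneg hlt
        (fun i hi hi0 => hB i hi hi0) hg1 hg2 hg1' hg2' with h1 | h1 | h1
      · have hch : (((V.card - 1).choose k : ℕ) : ℝ) =
            ((V.card : ℝ) - k) / V.card * (V.card.choose k : ℝ) := by
          obtain ⟨m, hm⟩ : ∃ m, V.card = m + 1 := ⟨V.card - 1, by omega⟩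
          rw [hm]
          have h2 := Nat.choose_mul_succ_eq m k
          have h3 : ((m.choose k : ℕ) : ℝ) * ((m : ℝ) + 1) =
              ((m + 1).choose k : ℝ) * ((m : ℝ) + 1 - k) := by
            have hkm : k ≤ m + 1 := by omega
            have h4 : (((m + 1 - k : ℕ)) : ℝ) = (m : ℝ) + 1 - k := by
              rw [Nat.cast_sub hkm]
              push_cast
              ring
            rw [← h4]
            exact_mod_cast h2
          have hm1 : ((m : ℝ) + 1) ≠ 0 := by positivity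
          simp only [Nat.add_sub_cancel]
          push_cast
          field_simp
          linarith
        rw [hch] at h1
        obtain ⟨h2, h3⟩ := hD2 _ _ hKr hNr
        exact case_A hK0 (by linarith) hC h2 h3 h1
      · obtain ⟨h2, h3⟩ := hq1c _ _ hKr hNr
        refine case_B (p0 := p0) (q0 := q1) hK0 hN1 hC ?_ h3 hp0 ?_ hq1 hwB h1
        · have : 1 ≤ 1 / φ' := by
            rw [le_div_iff₀ hφ']
            linarith
          linarith
        · nlinarith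
      · obtain ⟨G, hG, h1⟩ := h1
        obtain ⟨h2, h3⟩ := hq1c _ _ hKr hNr
        obtain ⟨h4, h5⟩ := hq2c _ _ hKr hNr
        have hG1 : G0 ≤ G := by
          rw [hG]
          refine hGt.trans ?_
          have h6 : t ≤ ((V.card : ℝ) - 2) / ((V.card : ℝ) - 1) := by
            rw [le_div_iff₀ (by linarith)]
            exact h5
          have h7 : g1 * t + g2 ≤ g1 * (((V.card : ℝ) - 2) / ((V.card : ℝ) - 1)) + g2 := by
            have := mul_le_mul_of_nonneg_left h6 hg1.le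
            linarith
          exact pow_le_pow_left₀ (by positivity) h7 2
        exact case_C (p0 := p0) (q1 := q1) (q2 := q2) hK0 hN1 hC h3 hp0 h2 hq1 h4 hq2 hG0 hG1 hwC h1

theorem t_MED : S_MED := by
  intro hNDL hPDW hNEG
  refine core hNDL hNEG 9 (17 / 20) (91 / 200) (8 / 25) (277 / 250) (137 / 200) (8 / 9) (15 / 17)
    (298 / 100) (1 / 9) (16 / 17) (by norm_num) (by norm_num) (by norm_num) (by norm_num)
    (by norm_num) (by norm_num) (by norm_num) (by norm_num) (by norm_num) ?_ (by norm_num)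
    (by norm_num) (by norm_num) (by norm_num) ?_ ?_ ?_ ?_ (by norm_num) (by norm_num)
    (by norm_num) (by norm_num)
  · intro α _ V k x a hk hn hs ha hxa hq
    have h1 := hPDW α V k x a (91 / 200) hk hn (by norm_num) (by norm_num) hs ha hxa hq.le
    refine le_trans ?_ h1
    have h2 : (0 : ℝ) ≤ (k : ℝ) * (V.card.choose k : ℝ) := by positivity
    have h3 : (17 / 20 : ℝ) ≤ 64 / (64 + 9 * (1 / (91 / 200) - 1)) := by norm_num
    have h4 := mul_le_mul_of_nonneg_right h3 h2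
    rw [mul_assoc, mul_assoc]
    exact h4
  · intro K N hK hN
    norm_num at hN ⊢
    linarith
  · intro K N hK hN
    norm_num at hN ⊢
    constructor <;> linarith
  · intro K N hK hN
    norm_num at hN ⊢
    constructor <;> linarith
  · intro K N hK hN
    norm_num at hN ⊢
    constructor <;> linarith

theorem t_MAIN : S_MAIN := by
  intro hNDL hPD hNEG hMED
  refine core hNDL hNEG 10 1 (31 / 100) (9 / 40) (761 / 1000) (269 / 500) (9 / 10) (17 / 19)
    (1584 / 1000) (1 / 10) (18 / 19) (by norm_num) (by norm_num) (by norm_num) (by norm_num)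
    (by norm_num) (by norm_num) (by norm_num) (by norm_num) (by norm_num) ?_ (by norm_num)
    (by norm_num) (by norm_num) (by norm_num) ?_ ?_ ?_ ?_ (by norm_num) (by norm_num)
    (by norm_num) (by norm_num)
  · intro α _ V k x a hk hn hs ha hxa hq
    have h1 := hPD hMED α V k x a hk hn hs ha hxa hq.le
    rw [one_mul]
    exact h1
  · intro K N hK hN
    norm_num at hN ⊢
    linarith
  · intro K N hK hN
    norm_num at hN ⊢
    constructor <;> linarith
  · intro K N hK hN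
    norm_num at hN ⊢
    constructor <;> linarith
  · intro K N hK hN
    norm_num at hN ⊢
    constructor <;> linarith

theorem t_FIN : S_FIN := by
  intro hM α _ V k x hk hn hs
  rcases Nat.lt_or_ge k 2 with h2 | h2
  · have hk1 : k = 1 := by omega
    subst hk1
    have hne : V.Nonempty := Finset.card_pos.1 (by omega)
    have hex : ∃ i ∈ V, 0 ≤ x i := by
      by_contra hcon
      push Not at hcon
      have := Finset.sum_neg hcon hne
      linarith
    obtain ⟨i, hi, hxi⟩ := hex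
    have h3 : 1 ≤ NN V 1 x := by
      unfold NN
      apply Finset.card_pos.2
      refine ⟨{i}, ?_⟩
      rw [Finset.mem_filter, Finset.mem_powersetCard]
      refine ⟨⟨Finset.singleton_subset_iff.2 hi, Finset.card_singleton i⟩, ?_⟩
      rw [Finset.sum_singleton]
      exact hxi
    simpa using h3
  · have h1 := hM α V k x h2 hn hs
    obtain ⟨m, hm⟩ : ∃ m, V.card = m + 1 := ⟨V.card - 1, by omega⟩
    obtain ⟨j, hj⟩ : ∃ j, k = j + 1 := ⟨k - 1, by omega⟩
    subst hj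
    rw [hm] at h1 ⊢
    simp only [Nat.add_sub_cancel]
    have h3 := Nat.add_one_mul_choose_eq m j
    have h4 : ((j + 1 : ℕ) : ℝ) * ((m + 1).choose (j + 1) : ℝ) = ((m + 1 : ℕ) : ℝ) * (m.choose j : ℝ) := by
      rw [mul_comm]
      exact_mod_cast h3.symm
    rw [one_mul, h4] at h1
    have h5 : (0 : ℝ) < ((m + 1 : ℕ) : ℝ) := by positivity
    have h6 := le_of_mul_le_mul_left h1 h5
    exact_mod_cast h6

end Pool.Agent.Q224.MS
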