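import Pool.Agent.Q113.MS.Stm

/-!
# Project MS, jobs KUR1, KUR2: kurtosis bounds
-/

set_option autoImplicit false

namespace Pool.Agent.Q224.MS

open Finset Pool.Agent.Q113.MS

theorem sum4_le {α : Type} (V : Finset α) (z : α → ℝ) :
    ∑ i ∈ V, z i ^ 4 ≤ (∑ i ∈ V, z i ^ 2) ^ 2 := by
  rw [sq, Finset.sum_mul]
  refine Finset.sum_le_sum fun i hi => ?_
  have h1 : z i ^ 2 ≤ ∑ j ∈ V, z j ^ 2 :=
    Finset.single_le_sum (f := fun j => z j ^ 2) (fun j _ => sq_nonneg _) hi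
  have h2 := mul_le_mul_of_nonneg_left h1 (sq_nonneg (z i))
  calc z i ^ 4 = z i ^ 2 * z i ^ 2 := by ring
    _ ≤ _ := h2

theorem red {K N C Q P F : ℝ} (hK : 2 ≤ K) (hN : 8 * K ≤ N)
    (hI : P * (N * (N - 1)) ≤ F * (K * (N - K)) * ((N - 2) * (N - 3)) * Q ^ 2) :
    C * (C * ((K * (N - K)) / (N * (N - 1) * (N - 2) * (N - 3))) * P) ≤
      F * (C * ((K * (N - K)) / (N * (N - 1))) * Q) ^ 2 := by
  have h1 : 0 < N := by linarith
  have h2 : 0 < N - 1 := by linarith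
  have h3 : 0 < N - 2 := by linarith
  have h4 : 0 < N - 3 := by linarith
  have h5 : 0 < N - K := by linarith
  have h6 : 0 < K := by linarith
  have e : F * (C * ((K * (N - K)) / (N * (N - 1))) * Q) ^ 2 -
      C * (C * ((K * (N - K)) / (N * (N - 1) * (N - 2) * (N - 3))) * P) =
      C ^ 2 * (K * (N - K)) / ((N * (N - 1)) ^ 2 * ((N - 2) * (N - 3))) *
        (F * (K * (N - K)) * ((N - 2) * (N - 3)) * Q ^ 2 - P * (N * (N - 1))) := by
    field_simp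
  have h7 : 0 ≤ C ^ 2 * (K * (N - K)) / ((N * (N - 1)) ^ 2 * ((N - 2) * (N - 3))) := by
    positivity
  have h8 := mul_nonneg h7 (sub_nonneg.2 hI)
  rw [← e] at h8
  linarith

theorem a0_pos {K N : ℝ} (hK : 2 ≤ K) (hN : 8 * K ≤ N) : 0 ≤ N * (N + 1) - 6 * K * (N - K) := by
  obtain ⟨i, hi⟩ : ∃ i : ℝ, K = 2 + i := ⟨K - 2, by ring⟩
  obtain ⟨j, hj⟩ : ∃ j : ℝ, N = 8 * K + j := ⟨N - 8 * K, by ring⟩
  have hi0 : 0 ≤ i := by linarith
  have hj0 : 0 ≤ j := by linarith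
  subst hj
  subst hi
  have : (0 : ℝ) ≤ (8 * (2 + i) + j) * (8 * (2 + i) + j + 1) - 6 * (2 + i) * (8 * (2 + i) + j - (2 + i)) := by
    ring_nf
    positivity
  exact this

theorem pol1 {K N : ℝ} (hK : 2 ≤ K) (hN : 8 * K ≤ N) :
    (N * (N + 1) - 6 * K * (N - K) + 3 * ((K - 1) * (N - K - 1))) * (N * (N - 1)) ≤
      (N - K) ^ 2 * ((N - 2) * (N - 3)) := by
  obtain ⟨i, hi⟩ : ∃ i : ℝ, K = 2 + i := ⟨K - 2, by ring⟩
  obtain ⟨j, hj⟩ : ∃ j : ℝ, N = 8 * K + j := ⟨N - 8 * K, by ring⟩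
  have hi0 : 0 ≤ i := by linarith
  have hj0 : 0 ≤ j := by linarith
  subst hj
  subst hi
  rw [← sub_nonneg]
  ring_nf
  positivity

theorem pol2 {K N : ℝ} (hK : 2 ≤ K) (hN : 8 * K ≤ N) :
    (3 * ((K - 1) * (N - K - 1))) * (N * (N - 1)) ≤
      3 * K * (N - K) * ((N - 2) * (N - 3)) := by
  obtain ⟨i, hi⟩ : ∃ i : ℝ, K = 2 + i := ⟨K - 2, by ring⟩
  obtain ⟨j, hj⟩ : ∃ j : ℝ, N = 8 * K + j := ⟨N - 8 * K, by ring⟩
  have hi0 : 0 ≤ i := by linarith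
  have hj0 : 0 ≤ j := by linarith
  subst hj
  subst hi
  rw [← sub_nonneg]
  ring_nf
  positivity

theorem pol3 {K N : ℝ} (hK : 2 ≤ K) (hN : 8 * K ≤ N) :
    ((N * (N + 1) - 6 * K * (N - K)) / 2 + 3 * ((K - 1) * (N - K - 1))) * (N * (N - 1)) ≤
      (3 * K + (N - 34 / 7 * K) / 2) * (N - K) * ((N - 2) * (N - 3)) := by
  obtain ⟨i, hi⟩ : ∃ i : ℝ, K = 2 + i := ⟨K - 2, by ring⟩
  obtain ⟨j, hj⟩ : ∃ j : ℝ, N = 8 * K + j := ⟨N - 8 * K, by ring⟩
  have hi0 : 0 ≤ i := by linarith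
  have hj0 : 0 ≤ j := by linarith
  subst hj
  subst hi
  rw [← sub_nonneg]
  ring_nf
  positivity

theorem t_KUR1 : S_MO2 → S_MO4 → S_KUR1 := by
  intro h2 h4 α _ V k z hk hm hz
  have e2 := h2 α V k z (by omega) (by omega) (by omega) hz
  have e4 := h4 α V k z (by omega) (by omega) (by omega) hz
  rw [e2, e4]
  have hK : (2 : ℝ) ≤ (k : ℝ) := by exact_mod_cast hk
  have hN : 8 * (k : ℝ) ≤ (V.card : ℝ) := by exact_mod_cast hm
  have hQ4 := sum4_le V z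
  generalize (V.card : ℝ) = N at *
  generalize (k : ℝ) = K at *
  generalize ∑ i ∈ V, z i ^ 4 = Q4 at *
  generalize ∑ i ∈ V, z i ^ 2 = Q at *
  apply red hK hN
  have hK0 : 0 < K := by linarith
  have e1 : (N / K - 1) * (K * (N - K)) * ((N - 2) * (N - 3)) * Q ^ 2 =
      ((N - K) ^ 2 * ((N - 2) * (N - 3))) * Q ^ 2 := by
    field_simp
  rw [e1]
  have h5 := mul_le_mul_of_nonneg_right (pol1 hK hN) (sq_nonneg Q)
  refine le_trans ?_ h5
  have h6 := mul_le_mul_of_nonneg_right hQ4 (a0_pos hK hN)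
  have h7 : 0 ≤ N * (N - 1) := mul_nonneg (by linarith) (by linarith)
  have h8 := mul_le_mul_of_nonneg_right h6 h7
  linarith

theorem t_KUR2 : S_MO2 → S_MO4 → S_KUR2 := by
  intro h2 h4 α _ V k z φ hk hm hφ0 hφ2 hz hQ4
  have e2 := h2 α V k z (by omega) (by omega) (by omega) hz
  have e4 := h4 α V k z (by omega) (by omega) (by omega) hz
  rw [e2, e4]
  have hK : (2 : ℝ) ≤ (k : ℝ) := by exact_mod_cast hk
  have hN : 8 * (k : ℝ) ≤ (V.card : ℝ) := by exact_mod_cast hm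
  generalize (V.card : ℝ) = N at *
  generalize (k : ℝ) = K at *
  generalize ∑ i ∈ V, z i ^ 4 = Q4 at *
  generalize ∑ i ∈ V, z i ^ 2 = Q at *
  apply red hK hN
  have hK0 : 0 < K := by linarith
  have e1 : (3 + φ * (N / K - 34 / 7)) * (K * (N - K)) * ((N - 2) * (N - 3)) * Q ^ 2 =
      ((1 - 2 * φ) * (3 * K * (N - K) * ((N - 2) * (N - 3))) +
        2 * φ * ((3 * K + (N - 34 / 7 * K) / 2) * (N - K) * ((N - 2) * (N - 3)))) * Q ^ 2 := by
    field_simp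
    ring
  rw [e1]
  have h51 := mul_le_mul_of_nonneg_left (pol2 hK hN) (show 0 ≤ 1 - 2 * φ by linarith)
  have h52 := mul_le_mul_of_nonneg_left (pol3 hK hN) (show 0 ≤ 2 * φ by linarith)
  have h5 := mul_le_mul_of_nonneg_right (add_le_add h51 h52) (sq_nonneg Q)
  refine le_trans ?_ h5
  have h6 := mul_le_mul_of_nonneg_right hQ4 (a0_pos hK hN)
  have h7 : 0 ≤ N * (N - 1) := mul_nonneg (by linarith) (by linarith)
  have h8 := mul_le_mul_of_nonneg_right h6 h7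
  linarith

end Pool.Agent.Q224.MS
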