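import Pool.Agent.Q224.MS.Basic

/-!
# Cycles of vertices of degree three: counting the labels
-/

set_option autoImplicit false

namespace Q224.MS

open Finset

section

variable {K R : Type} [Fintype K] [DecidableEq K] [Fintype R] [DecidableEq R]

/-- Adjacency: the elements of `K` lie on cycles (`s` is the successor), `a` is adjacent to the
element `ρ a` of `R`, and `H` is a graph on `R`. -/
def Ad (s : Equiv.Perm K) (ρ : K → R) (H : R → R → Prop) : K ⊕ R → K ⊕ R → Prop
  | .inl a, .inl b => b = s a ∨ a = s b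
  | .inl a, .inr r => ρ a = r
  | .inr r, .inl a => ρ a = r
  | .inr r, .inr r' => H r r'

theorem hits (s : Equiv.Perm K) {o p : K → ℕ}
    (h : ∀ a, 1 ≤ o a + p (s.symm a) + o (s a) + p (s a))
    (hb : 2 * (∑ a, o a + ∑ a, p a) ≤ Fintype.card K) :
    (∀ a, o a + p (s.symm a) + o (s a) + p (s a) = 1) ∧
      2 * (∑ a, o a + ∑ a, p a) = Fintype.card K := by
  have h1 : ∑ a, (o a + p (s.symm a) + o (s a) + p (s a)) = 2 * (∑ a, o a + ∑ a, p a) := by
    rw [Finset.sum_add_distrib, Finset.sum_add_distrib, Finset.sum_add_distrib,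
      Equiv.sum_comp s.symm p, Equiv.sum_comp s o, Equiv.sum_comp s p]
    ring
  have h2 : ∑ _a : K, 1 = Fintype.card K := by simp
  have h3 : ∑ _a : K, 1 ≤ ∑ a, (o a + p (s.symm a) + o (s a) + p (s a)) :=
    Finset.sum_le_sum fun a _ => h a
  have h4 : ∑ _a : K, 1 = ∑ a, (o a + p (s.symm a) + o (s a) + p (s a)) := by omega
  have h5 := (Finset.sum_eq_sum_iff_of_le (fun a _ => h a)).1 h4
  exact ⟨fun a => (h5 a (Finset.mem_univ _)).symm, by omega⟩

variable {s : Equiv.Perm K} {ρ : K → R} {H : R → R → Prop} {l : K ⊕ R → K ⊕ R → ℕ}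

section

variable (hs1 : ∀ a, s a ≠ a) (hs2 : ∀ a, s (s a) ≠ a)
  (hl : LabOn Finset.univ (Ad s ρ H) l)

include hl in
theorem row_inr (a : K) : ∑ r, l (.inl a) (.inr r) = l (.inl a) (.inr (ρ a)) := by
  refine Fintype.sum_eq_single _ fun r hr => ?_
  by_contra hc
  exact hr ((hl.supp (.inl a) (mem_univ _) (.inr r) (mem_univ _)).1 hc).symm

include hs2 hl in
theorem color_inl (a : K) : ∑ w, l (.inl a) w =
    l (.inl a) (.inl (s a)) + l (.inl (s.symm a)) (.inl a) + l (.inl a) (.inr (ρ a)) := by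
  rw [Fintype.sum_sum_type, row_inr hl]
  congr 1
  rw [Fintype.sum_eq_add (s a) (s.symm a)]
  · rw [hl.symm (.inl a) (mem_univ _) (.inl (s.symm a)) (mem_univ _)]
  · intro h
    apply hs2 a
    rw [h]; simp
  · intro b hb
    by_contra hc
    rcases (hl.supp (.inl a) (mem_univ _) (.inl b) (mem_univ _)).1 hc with h | h
    · exact hb.1 h
    · exact hb.2 (by rw [h]; simp)

include hs2 hl in
theorem total_eq : ∑ u, ∑ w, l u w = 2 * ∑ a, l (.inl a) (.inl (s a)) +
    2 * ∑ a, l (.inl a) (.inr (ρ a)) + ∑ r, ∑ r', l (.inr r) (.inr r') := by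
  rw [Fintype.sum_sum_type]
  have h1 : ∑ a, ∑ w, l (.inl a) w = 2 * ∑ a, l (.inl a) (.inl (s a)) +
      ∑ a, l (.inl a) (.inr (ρ a)) := by
    have e : ∑ a, l (.inl (s.symm a)) (.inl a) = ∑ a, l (.inl a) (.inl (s a)) := by
      rw [← Equiv.sum_comp s.symm (fun a => l (.inl a) (.inl (s a)))]
      simp
    rw [Finset.sum_congr rfl fun a _ => color_inl hs2 hl a, Finset.sum_add_distrib,
      Finset.sum_add_distrib, e]
    ring
  have h2 : ∑ r, ∑ w, l (.inr r) w = ∑ a, l (.inl a) (.inr (ρ a)) +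
      ∑ r, ∑ r', l (.inr r) (.inr r') := by
    have e : ∑ r, ∑ a, l (.inr r) (.inl a) = ∑ a, l (.inl a) (.inr (ρ a)) := by
      rw [Finset.sum_comm]
      refine Finset.sum_congr rfl fun a _ => ?_
      rw [← row_inr hl]
      refine Finset.sum_congr rfl fun r _ => ?_
      exact hl.symm _ (mem_univ _) _ (mem_univ _)
    rw [← e, ← Finset.sum_add_distrib]
    refine Finset.sum_congr rfl fun r _ => ?_
    rw [Fintype.sum_sum_type]
  rw [h1, h2]
  ring

include hs2 hl in
/-- With the least possible label sum the cycles have exactly one extra unit per two vertices. -/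
theorem forward [DecidableRel H]
    (ht : ∑ u, ∑ w, l u w ≤ 5 * Fintype.card K + ∑ r, ∑ r', (if H r r' then 1 else 0)) :
    (∀ a, (l (.inl a) (.inr (ρ a)) - 1) + (l (.inl (s.symm a)) (.inl a) - 1) +
      (l (.inl (s a)) (.inr (ρ (s a))) - 1) + (l (.inl (s a)) (.inl (s (s a))) - 1) = 1) ∧
    ∀ r r', l (.inr r) (.inr r') = if H r r' then 1 else 0 := by
  let o : K → ℕ := fun a => l (.inl a) (.inr (ρ a)) - 1
  let p : K → ℕ := fun a => l (.inl a) (.inl (s a)) - 1
  have ho : ∀ a, l (.inl a) (.inr (ρ a)) = o a + 1 := by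
    intro a
    have := (hl.supp (.inl a) (mem_univ _) (.inr (ρ a)) (mem_univ _)).2 rfl
    simp only [o]; omega
  have hp : ∀ a, l (.inl a) (.inl (s a)) = p a + 1 := by
    intro a
    have := (hl.supp (.inl a) (mem_univ _) (.inl (s a)) (mem_univ _)).2 (Or.inl rfl)
    simp only [p]; omega
  have hp' : ∀ a, l (.inl (s.symm a)) (.inl a) = p (s.symm a) + 1 := by
    intro a
    have := hp (s.symm a)
    rwa [Equiv.apply_symm_apply] at this
  have htot := total_eq hs2 hl
  have e1 : ∑ a, l (.inl a) (.inr (ρ a)) = ∑ a, o a + Fintype.card K := by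
    rw [Finset.sum_congr rfl fun a _ => ho a, Finset.sum_add_distrib]; simp
  have e2 : ∑ a, l (.inl a) (.inl (s a)) = ∑ a, p a + Fintype.card K := by
    rw [Finset.sum_congr rfl fun a _ => hp a, Finset.sum_add_distrib]; simp
  have hrr : ∀ r r', (if H r r' then 1 else 0) ≤ l (.inr r) (.inr r') := by
    intro r r'
    by_cases h : H r r'
    · rw [if_pos h]
      have := (hl.supp (.inr r) (mem_univ _) (.inr r') (mem_univ _)).2 h
      omega
    · rw [if_neg h]; exact Nat.zero_le _
  have e3 : ∑ r, ∑ r', (if H r r' then 1 else 0) ≤ ∑ r, ∑ r', l (.inr r) (.inr r') :=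
    Finset.sum_le_sum fun r _ => Finset.sum_le_sum fun r' _ => hrr r r'
  have hh : ∀ a, 1 ≤ o a + p (s.symm a) + o (s a) + p (s a) := by
    intro a
    have h1 := hl.ne (.inl a) (mem_univ _) (.inl (s a)) (mem_univ _) (Or.inl rfl)
    rw [color_inl hs2 hl, color_inl hs2 hl, Equiv.symm_apply_apply, ho, ho, hp, hp, hp'] at h1
    omega
  obtain ⟨h1, h2⟩ := hits s hh (by omega)
  refine ⟨fun a => ?_, ?_⟩
  · have := h1 a
    rw [ho, ho, hp, hp']
    omega
  · have e4 : ∑ r, ∑ r', l (.inr r) (.inr r') = ∑ r, ∑ r', (if H r r' then 1 else 0) := by omega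
    intro r r'
    have e5 := (Finset.sum_eq_sum_iff_of_le (s := Finset.univ)
      (fun r _ => Finset.sum_le_sum fun r' _ => hrr r r')).1 e4.symm r (mem_univ _)
    have e6 := (Finset.sum_eq_sum_iff_of_le (s := Finset.univ)
      (fun r' _ => hrr r r')).1 e5 r' (mem_univ _)
    exact e6.symm

end

/-- The labelling for an assignment. -/
def labT (s : Equiv.Perm K) (ρ : K → R) (H : R → R → Prop) [DecidableRel H] (t : K → ℕ) :
    K ⊕ R → K ⊕ R → ℕ
  | .inl a, .inl b => if b = s a ∨ a = s b then 1 else 0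
  | .inl a, .inr r => if ρ a = r then 1 + t a else 0
  | .inr r, .inl a => if ρ a = r then 1 + t a else 0
  | .inr r, .inr r' => if H r r' then 1 else 0

theorem backward [DecidableRel H] (hs1 : ∀ a, s a ≠ a) (hs2 : ∀ a, s (s a) ≠ a)
    (hH : ∀ r r', H r r' → H r' r) (t : K → ℕ) (ht : ∀ a, t a + t (s a) = 1)
    (hc1 : ∀ a, ∑ b, (if ρ b = ρ a then 1 + t b else 0) +
      ∑ r', (if H (ρ a) r' then 1 else 0) ≠ 3 + t a)
    (hc2 : ∀ r r', H r r' → ∑ b, (if ρ b = r then 1 + t b else 0) +
      ∑ x, (if H r x then 1 else 0) ≠ ∑ b, (if ρ b = r' then 1 + t b else 0) +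
      ∑ x, (if H r' x then 1 else 0)) {k : ℕ}
    (hk : 5 * Fintype.card K + ∑ r, ∑ r', (if H r r' then 1 else 0) ≤ 2 * k) :
    FeasL Finset.univ (Ad s ρ H) k := by
  have hsym : ∀ u v, labT s ρ H t u v = labT s ρ H t v u := by
    rintro (a | r) (b | r')
    · simp only [labT, or_comm]
    · rfl
    · rfl
    · simp only [labT]
      by_cases h : H r r'
      · rw [if_pos h, if_pos (hH _ _ h)]
      · rw [if_neg h, if_neg (fun h' => h (hH _ _ h'))]
  have hsupp : ∀ u v, labT s ρ H t u v ≠ 0 ↔ Ad s ρ H u v := by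
    rintro (a | r) (b | r') <;> simp only [labT, Ad] <;> split_ifs with h <;> simp [h]
  -- colors
  have c1 : ∀ a, ∑ w, labT s ρ H t (.inl a) w = 3 + t a := by
    intro a
    rw [Fintype.sum_sum_type]
    have e1 : ∑ b, labT s ρ H t (.inl a) (.inl b) = 2 := by
      rw [Fintype.sum_eq_add (s a) (s.symm a)]
      · simp [labT]
      · intro h
        apply hs2 a
        rw [h]; simp
      · intro b hb
        simp only [labT]
        rw [if_neg]
        rintro (h | h)
        · exact hb.1 h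
        · exact hb.2 (by rw [h]; simp)
    have e2 : ∑ r, labT s ρ H t (.inl a) (.inr r) = 1 + t a := by
      rw [Fintype.sum_eq_single (ρ a)]
      · simp [labT]
      · intro r hr
        simp only [labT]
        rw [if_neg (Ne.symm hr)]
    rw [e1, e2]
    omega
  have c2 : ∀ r, ∑ w, labT s ρ H t (.inr r) w = ∑ b, (if ρ b = r then 1 + t b else 0) +
      ∑ x, (if H r x then 1 else 0) := by
    intro r
    rw [Fintype.sum_sum_type]
    rfl
  have hlab : LabOn Finset.univ (Ad s ρ H) (labT s ρ H t) := by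
    refine ⟨fun u _ v _ => hsym u v, fun u _ v _ => hsupp u v, ?_⟩
    rintro (a | r) - (b | r') - h
    · rw [c1, c1]
      rcases h with h | h
      · subst h
        have := ht a
        omega
      · subst h
        have := ht b
        omega
    · rw [c1, c2]
      change ρ a = r' at h
      subst h
      exact (hc1 a).symm
    · rw [c1, c2]
      change ρ b = r at h
      subst h
      exact hc1 b
    · rw [c2, c2]
      exact hc2 r r' h
  refine ⟨labT s ρ H t, hlab, ?_⟩
  rw [total_eq hs2 hlab]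
  have e1 : ∑ a, labT s ρ H t (.inl a) (.inl (s a)) = Fintype.card K := by
    simp [labT]
  have e2 : ∑ a, labT s ρ H t (.inl a) (.inr (ρ a)) = Fintype.card K + ∑ a, t a := by
    simp [labT, Finset.sum_add_distrib]
  have e3 : ∑ r, ∑ r', labT s ρ H t (.inr r) (.inr r') = ∑ r, ∑ r', (if H r r' then 1 else 0) :=
    rfl
  have e4 : 2 * ∑ a, t a = Fintype.card K := by
    have h1 : ∑ a, (t a + t (s a)) = ∑ _a : K, 1 := Finset.sum_congr rfl fun a _ => ht a
    rw [Finset.sum_add_distrib, Equiv.sum_comp s t] at h1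
    simp only [Finset.sum_const, Finset.card_univ, smul_eq_mul, mul_one] at h1
    omega
  rw [e1, e2, e3]
  omega

end

end Q224.MS
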