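import Pool.Agent.Q224.MS.Defs
import Pool.Agent.Q224.UC.Basic

/-!
# The minimum label sum: reformulations
-/

set_option autoImplicit false

namespace Q224.MS

open Pool.Agent.NPC Q224.PL Q224.UC Finset

/-- Properly labelled on the finite set `S`, as weighted adjacency matrices. -/
structure LabOn {α : Type} (S : Finset α) (A : α → α → Prop) (l : α → α → ℕ) : Prop where
  symm : ∀ u ∈ S, ∀ v ∈ S, l u v = l v u
  supp : ∀ u ∈ S, ∀ v ∈ S, (l u v ≠ 0 ↔ A u v)
  ne : ∀ u ∈ S, ∀ v ∈ S, A u v → ∑ w ∈ S, l u w ≠ ∑ w ∈ S, l v w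

/-- Feasibility of the label sum `k`. -/
def FeasL {α : Type} (S : Finset α) (A : α → α → Prop) (k : ℕ) : Prop :=
  ∃ l : α → α → ℕ, LabOn S A l ∧ ∑ u ∈ S, ∑ w ∈ S, l u w ≤ 2 * k

theorem color_eq {V : Type} [Fintype V] (G : SimpleGraph V) (l : Sym2 V → ℕ) (v : V)
    [DecidableRel G.Adj] : color G l v = ∑ u, if G.Adj v u then l s(v, u) else 0 := by
  classical
  unfold color
  rw [finsum_mem_def, finsum_eq_sum_of_fintype]
  refine Finset.sum_congr rfl fun u _ => ?_
  rw [Set.indicator_apply]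
  simp only [SimpleGraph.mem_neighborSet]

theorem two_total {V : Type} [Fintype V] (G : SimpleGraph V) (l : Sym2 V → ℕ)
    [DecidableRel G.Adj] : ∑ v, ∑ u, (if G.Adj v u then l s(v, u) else 0) = 2 * total G l := by
  classical
  let F : Sym2 V → ℕ := fun e => if e ∈ G.edgeSet then l e else 0
  have h1 : ∑ v, ∑ u, (if G.Adj v u then l s(v, u) else 0) = ∑ p : V × V, F s(p.1, p.2) := by
    rw [Fintype.sum_prod_type]
    refine Finset.sum_congr rfl fun v _ => Finset.sum_congr rfl fun u _ => ?_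
    simp only [F, SimpleGraph.mem_edgeSet]
  have h2 : total G l = ∑ e, F e := by
    unfold total
    rw [finsum_mem_def, finsum_eq_sum_of_fintype]
    refine Finset.sum_congr rfl fun e _ => ?_
    rw [Set.indicator_apply]
  rw [h1, h2, Finset.sum_comp F (fun p : V × V => s(p.1, p.2)), Finset.mul_sum]
  rw [← Finset.sum_subset (Finset.subset_univ (univ.image (fun p : V × V => s(p.1, p.2))))]
  · refine Finset.sum_congr rfl fun e _ => ?_
    by_cases he : e ∈ G.edgeSet
    · induction e using Sym2.ind with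
      | _ a b =>
        have hab : a ≠ b := (G.mem_edgeSet.1 he).ne
        have hf : (univ.filter (fun p : V × V => s(p.1, p.2) = s(a, b))) = {(a, b), (b, a)} := by
          ext p
          rw [Finset.mem_filter, Finset.mem_insert, Finset.mem_singleton, Sym2.eq_iff, Prod.ext_iff,
            Prod.ext_iff]
          simp
        rw [hf, Finset.card_pair (by simp [hab]), smul_eq_mul]
    · simp [F, he]
  · intro e _ he
    exfalso
    apply he
    induction e using Sym2.ind with
    | _ a b => exact Finset.mem_image.2 ⟨(a, b), Finset.mem_univ _, rfl⟩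

theorem mE_le_iff' {V : Type} (G : SimpleGraph V) (k : ℕ) :
    mE G ≤ (k : ℕ∞) ↔ ∃ l, IsProper G l ∧ total G l ≤ k := by
  unfold mE
  constructor
  · intro h
    by_contra hc
    push Not at hc
    have h1 : ((k + 1 : ℕ) : ℕ∞) ≤ ⨅ l ∈ {l | IsProper G l}, (total G l : ℕ∞) := by
      refine le_iInf₂ fun l hl => ?_
      exact_mod_cast hc l hl
    have h2 := h1.trans h
    have h3 : k + 1 ≤ k := by exact_mod_cast h2
    omega
  · rintro ⟨l, h1, h2⟩
    refine (iInf₂_le l h1).trans ?_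
    exact_mod_cast h2

theorem mE_le_iff {V : Type} [Fintype V] (G : SimpleGraph V) (k : ℕ) :
    mE G ≤ (k : ℕ∞) ↔ FeasL Finset.univ G.Adj k := by
  classical
  rw [mE_le_iff']
  constructor
  · rintro ⟨l, h1, h2⟩
    refine ⟨fun v u => if G.Adj v u then l s(v, u) else 0, ⟨?_, ?_, ?_⟩, ?_⟩
    · intro u _ v _
      simp only [G.adj_comm, Sym2.eq_swap]
    · intro u _ v _
      by_cases h : G.Adj u v
      · have := h1.pos s(u, v) (G.mem_edgeSet.2 h)
        simp only [h, if_true]
        simp only [iff_true]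
        omega
      · simp [h]
    · intro u _ v _ h
      rw [← color_eq, ← color_eq]
      exact h1.ne u v h
    · simp only
      rw [two_total]
      omega
  · rintro ⟨l, h1, h2⟩
    let L : Sym2 V → ℕ := fun e => Sym2.lift ⟨l, fun u v => h1.symm u (mem_univ _) v (mem_univ _)⟩ e
    have hL : ∀ u v, L s(u, v) = l u v := fun u v => rfl
    have hrow : ∀ u v, (if G.Adj u v then L s(u, v) else 0) = l u v := by
      intro u v
      by_cases h : G.Adj u v
      · rw [if_pos h, hL]
      · rw [if_neg h]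
        by_contra hc
        exact h ((h1.supp u (mem_univ _) v (mem_univ _)).1 (Ne.symm hc))
    refine ⟨L, ⟨?_, ?_⟩, ?_⟩
    · intro e he
      induction e using Sym2.ind with
      | _ a b =>
        have := (h1.supp a (mem_univ _) b (mem_univ _)).2 (G.mem_edgeSet.1 he)
        rw [hL]; omega
    · intro u v h
      rw [color_eq, color_eq]
      simp only [hrow]
      exact h1.ne u (mem_univ _) v (mem_univ _) h
    · have := two_total G L
      simp only [hrow] at this
      omega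

theorem feasL_image {α β : Type} [DecidableEq β] {S : Finset α} {A : α → α → Prop}
    {B : β → β → Prop} {k : ℕ} {f : α → β} (hf : Set.InjOn f S)
    (h : ∀ u ∈ S, ∀ v ∈ S, (A u v ↔ B (f u) (f v))) :
    FeasL S A k ↔ FeasL (S.image f) B k := by
  classical
  constructor
  · rintro ⟨l, h1, h2⟩
    rcases S.eq_empty_or_nonempty with rfl | ⟨a0, ha0⟩
    · exact ⟨fun _ _ => 0, ⟨by simp, by simp, by simp⟩, by simp⟩
    let g : β → α := fun b => if hb : ∃ a ∈ S, f a = b then hb.choose else a0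
    have hg : ∀ a ∈ S, g (f a) = a := by
      intro a ha
      have hb : ∃ a' ∈ S, f a' = f a := ⟨a, ha, rfl⟩
      simp only [g, dif_pos hb]
      exact hf hb.choose_spec.1 ha hb.choose_spec.2
    have hsum : ∀ u ∈ S, ∑ w ∈ S.image f, l (g (f u)) (g w) = ∑ w ∈ S, l u w := by
      intro u hu
      rw [Finset.sum_image hf]
      refine Finset.sum_congr rfl fun w hw => ?_
      rw [hg u hu, hg w hw]
    refine ⟨fun b b' => l (g b) (g b'), ⟨?_, ?_, ?_⟩, ?_⟩
    · intro u hu v hv
      obtain ⟨u', hu', rfl⟩ := Finset.mem_image.1 hu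
      obtain ⟨v', hv', rfl⟩ := Finset.mem_image.1 hv
      simp only [hg u' hu', hg v' hv']
      exact h1.symm u' hu' v' hv'
    · intro u hu v hv
      obtain ⟨u', hu', rfl⟩ := Finset.mem_image.1 hu
      obtain ⟨v', hv', rfl⟩ := Finset.mem_image.1 hv
      simp only [hg u' hu', hg v' hv']
      rw [h1.supp u' hu' v' hv', h u' hu' v' hv']
    · intro u hu v hv hb
      obtain ⟨u', hu', rfl⟩ := Finset.mem_image.1 hu
      obtain ⟨v', hv', rfl⟩ := Finset.mem_image.1 hv
      rw [hsum u' hu', hsum v' hv']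
      exact h1.ne u' hu' v' hv' ((h u' hu' v' hv').2 hb)
    · rw [Finset.sum_image hf]
      refine le_trans (le_of_eq (Finset.sum_congr rfl fun u hu => ?_)) h2
      simp only
      exact hsum u hu
  · rintro ⟨l, h1, h2⟩
    have hsum : ∀ u, ∑ w ∈ S, l (f u) (f w) = ∑ w ∈ S.image f, l (f u) w := by
      intro u
      rw [Finset.sum_image hf]
    refine ⟨fun a a' => l (f a) (f a'), ⟨?_, ?_, ?_⟩, ?_⟩
    · intro u hu v hv
      exact h1.symm _ (Finset.mem_image_of_mem _ hu) _ (Finset.mem_image_of_mem _ hv)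
    · intro u hu v hv
      rw [h1.supp _ (Finset.mem_image_of_mem _ hu) _ (Finset.mem_image_of_mem _ hv), h u hu v hv]
    · intro u hu v hv ha
      rw [hsum, hsum]
      exact h1.ne _ (Finset.mem_image_of_mem _ hu) _ (Finset.mem_image_of_mem _ hv)
        ((h u hu v hv).1 ha)
    · rw [Finset.sum_image hf] at h2
      refine le_trans (le_of_eq (Finset.sum_congr rfl fun u hu => ?_)) h2
      simp only
      exact hsum u

/-- The minimum label sum of a coded graph. -/
theorem mE_cG_iff (x : List ℕ × List (ℕ × ℕ)) (k : ℕ) :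
    mE (cG x) ≤ (k : ℕ∞) ↔ FeasL x.1.toFinset (fun u v => adj x.2 u v = true) k := by
  classical
  have : Fintype {v : ℕ // v ∈ x.1} := Fintype.subtype x.1.toFinset (by simp)
  rw [mE_le_iff]
  have himg : (Finset.univ : Finset {v : ℕ // v ∈ x.1}).image (fun v => v.1) = x.1.toFinset := by
    ext v
    simp
  rw [← himg]
  exact feasL_image (Subtype.val_injective.injOn) (fun u _ v _ => cG_adj x u v)

/-- Niceness on a finite set. -/
def NiceOn {α : Type} (S : Finset α) (A : α → α → Prop) : Prop :=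
  ∀ u ∈ S, ∀ v ∈ S, A u v → ∃ w ∈ S, (w ≠ v ∧ A u w) ∨ (w ≠ u ∧ A v w)

theorem nice_cG_iff (x : List ℕ × List (ℕ × ℕ)) :
    Nice (cG x) ↔ NiceOn x.1.toFinset (fun u v => adj x.2 u v = true) := by
  unfold Nice NiceOn
  constructor
  · intro h u hu v hv huv
    obtain ⟨w, hw⟩ := h ⟨u, List.mem_toFinset.1 hu⟩ ⟨v, List.mem_toFinset.1 hv⟩
      ((cG_adj x _ _).2 huv)
    refine ⟨w.1, List.mem_toFinset.2 w.2, ?_⟩
    rcases hw with ⟨h1, h2⟩ | ⟨h1, h2⟩
    · exact Or.inl ⟨fun h3 => h1 (Subtype.ext h3), (cG_adj x _ _).1 h2⟩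
    · exact Or.inr ⟨fun h3 => h1 (Subtype.ext h3), (cG_adj x _ _).1 h2⟩
  · intro h u v huv
    obtain ⟨w, hw, hw2⟩ := h u.1 (List.mem_toFinset.2 u.2) v.1 (List.mem_toFinset.2 v.2)
      ((cG_adj x _ _).1 huv)
    refine ⟨⟨w, List.mem_toFinset.1 hw⟩, ?_⟩
    rcases hw2 with ⟨h1, h2⟩ | ⟨h1, h2⟩
    · exact Or.inl ⟨fun h3 => h1 (congrArg Subtype.val h3), (cG_adj x _ _).2 h2⟩
    · exact Or.inr ⟨fun h3 => h1 (congrArg Subtype.val h3), (cG_adj x _ _).2 h2⟩

theorem niceOn_image {α β : Type} [DecidableEq β] {S : Finset α} {A : α → α → Prop}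
    {B : β → β → Prop} {f : α → β} (hf : Set.InjOn f S)
    (h : ∀ u ∈ S, ∀ v ∈ S, (A u v ↔ B (f u) (f v))) :
    NiceOn S A ↔ NiceOn (S.image f) B := by
  unfold NiceOn
  constructor
  · intro hn u hu v hv hb
    obtain ⟨u', hu', rfl⟩ := Finset.mem_image.1 hu
    obtain ⟨v', hv', rfl⟩ := Finset.mem_image.1 hv
    obtain ⟨w, hw, hw2⟩ := hn u' hu' v' hv' ((h u' hu' v' hv').2 hb)
    refine ⟨f w, Finset.mem_image_of_mem _ hw, ?_⟩
    rcases hw2 with ⟨h1, h2⟩ | ⟨h1, h2⟩
    · exact Or.inl ⟨fun h3 => h1 (hf hw hv' h3), (h u' hu' w hw).1 h2⟩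
    · exact Or.inr ⟨fun h3 => h1 (hf hw hu' h3), (h v' hv' w hw).1 h2⟩
  · intro hn u hu v hv hb
    obtain ⟨w, hw, hw2⟩ := hn (f u) (Finset.mem_image_of_mem _ hu) (f v)
      (Finset.mem_image_of_mem _ hv) ((h u hu v hv).1 hb)
    obtain ⟨w', hw', rfl⟩ := Finset.mem_image.1 hw
    refine ⟨w', hw', ?_⟩
    rcases hw2 with ⟨h1, h2⟩ | ⟨h1, h2⟩
    · exact Or.inl ⟨fun h3 => h1 (by rw [h3]), (h u hu w' hw').2 h2⟩
    · exact Or.inr ⟨fun h3 => h1 (by rw [h3]), (h v hv w' hw').2 h2⟩

/-- Coded structured graphs. -/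
theorem mE_code_iff {Vs : List W} {R : W → W → Bool} {k : ℕ} :
    mE (cG (code Vs R)) ≤ (k : ℕ∞) ↔
      FeasL Vs.toFinset (fun u v => u ≠ v ∧ (R u v = true ∨ R v u = true)) k := by
  classical
  rw [mE_cG_iff]
  have himg : (code Vs R).1.toFinset = Vs.toFinset.image nm := by
    ext v
    simp [code]
  rw [himg]
  exact (feasL_image nm_inj.injOn fun u hu v hv =>
    (adj_code (List.mem_toFinset.1 hu) (List.mem_toFinset.1 hv)).symm).symm

theorem nice_code_iff {Vs : List W} {R : W → W → Bool} :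
    Nice (cG (code Vs R)) ↔
      NiceOn Vs.toFinset (fun u v => u ≠ v ∧ (R u v = true ∨ R v u = true)) := by
  classical
  rw [nice_cG_iff]
  have himg : (code Vs R).1.toFinset = Vs.toFinset.image nm := by
    ext v
    simp [code]
  rw [himg]
  exact (niceOn_image nm_inj.injOn fun u hu v hv =>
    (adj_code (List.mem_toFinset.1 hu) (List.mem_toFinset.1 hv)).symm).symm

end Q224.MS
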