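import Pool.Agent.NPC.Classes
import Pool.Agent.Q224.PL.Alg

/-!
# The minimum label sum of proper labellings: definitions
-/

set_option autoImplicit false

namespace Q224.MS

open Pool.Agent.NPC Q224.PL

variable {V : Type}

/-- The color of the vertex `v`: the sum of the labels of the edges at `v`. -/
noncomputable def color (G : SimpleGraph V) (l : Sym2 V → ℕ) (v : V) : ℕ :=
  ∑ᶠ u ∈ G.neighborSet v, l s(v, u)

/-- `l` is a proper labelling (values outside of the edges are irrelevant): the labels of the edges
are positive, and adjacent vertices have different colors. -/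
structure IsProper (G : SimpleGraph V) (l : Sym2 V → ℕ) : Prop where
  pos : ∀ e ∈ G.edgeSet, 1 ≤ l e
  ne : ∀ u v, G.Adj u v → color G l u ≠ color G l v

/-- The label sum. -/
noncomputable def total (G : SimpleGraph V) (l : Sym2 V → ℕ) : ℕ := ∑ᶠ e ∈ G.edgeSet, l e

/-- **The minimum label sum** `mE(G)` of a proper labelling (`⊤` if there is none). -/
noncomputable def mE (G : SimpleGraph V) : ℕ∞ := ⨅ l ∈ {l | IsProper G l}, (total G l : ℕ∞)

/-- `G` is nice: no component of `G` is isomorphic to `K₂`, i.e. for every edge one of the two ends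
has another neighbour. -/
def Nice (G : SimpleGraph V) : Prop :=
  ∀ u v, G.Adj u v → ∃ w, (w ≠ v ∧ G.Adj u w) ∨ (w ≠ u ∧ G.Adj v w)

/-- The decision problem MIN-SUM: `x.1` is the code (list of vertices, list of edges) of a nice
graph `G`, and `mE(G) ≤ x.2`. -/
def MinSum (x : (List ℕ × List (ℕ × ℕ)) × ℕ) : Prop := Nice (cG x.1) ∧ mE (cG x.1) ≤ (x.2 : ℕ∞)

/-- NP-completeness of MIN-SUM: the problem is in `NP`, and every language in `NP` has a
polynomial-time many-one reduction to it, all of whose values are codes of nice graphs. -/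
def MinSumComplete : Prop :=
  InNPP MinSum ∧
    ∀ L : Set (List Bool), InNP L → ∃ f : List Bool → (List ℕ × List (ℕ × ℕ)) × ℕ,
      PolyTime (fun y => bits (f y)) ∧ (∀ y, Nice (cG (f y).1)) ∧
        ∀ y, y ∈ L ↔ mE (cG (f y).1) ≤ ((f y).2 : ℕ∞)

end Q224.MS
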