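import Pool.Agent.Q224.MS.Basic

/-!
# Nice trees have proper labellings with small labels
-/

set_option autoImplicit false

namespace Q224.MS

open Finset

/-- Trees with at least three vertices have proper labellings with labels at most the number of
vertices. -/
theorem tree_lab (n : ℕ) : ∀ (V : Type) [Fintype V] [DecidableEq V] (G : SimpleGraph V),
    G.IsTree → Fintype.card V = n → ∃ l : V → V → ℕ, (∀ u v, l u v = l v u) ∧
      (∀ u v, l u v ≠ 0 ↔ G.Adj u v) ∧ (∀ u v, l u v ≤ n) ∧
      (3 ≤ n → ∀ u v, G.Adj u v → ∑ w, l u w ≠ ∑ w, l v w) := by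
  classical
  induction n with
  | zero =>
    intro V _ _ G hG hc
    have := hG.connected.nonempty
    exact absurd hc Fintype.card_ne_zero
  | succ n ih =>
    intro V _ _ G hG hc
    rcases Nat.eq_zero_or_pos n with rfl | hn
    · have hsub : Subsingleton V := Fintype.card_le_one_iff_subsingleton.1 (by omega)
      refine ⟨fun _ _ => 0, fun _ _ => rfl, fun u v => ?_, fun _ _ => Nat.zero_le _, by omega⟩
      simp only [ne_eq, not_true_eq_false, false_iff]
      intro h
      exact h.ne (Subsingleton.elim _ _)
    · have hnt : Nontrivial V := Fintype.one_lt_card_iff_nontrivial.1 (by omega)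
      obtain ⟨v, hv⟩ := hG.exists_vert_degree_one_of_nontrivial
      have hv' := hv
      rw [SimpleGraph.degree_eq_one_iff_existsUnique_adj] at hv'
      obtain ⟨p, hvp, huni⟩ := hv'
      have hconn := hG.connected.induce_compl_singleton_of_degree_eq_one hv
      have hacyc := hG.isAcyclic.induce ({v}ᶜ : Set V)
      have hpv : p ≠ v := fun h => by rw [h] at hvp; exact G.irrefl hvp
      have hcard : Fintype.card ({v}ᶜ : Set V) = n := by
        rw [Fintype.card_compl_set, hc]
        simp
      obtain ⟨l, h1, h2, h3, h4⟩ := ih ({v}ᶜ : Set V) (G.induce ({v}ᶜ : Set V)) ⟨hconn, hacyc⟩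
        hcard
      let P : ({v}ᶜ : Set V) := ⟨p, hpv⟩
      let c : ({v}ᶜ : Set V) → ℕ := fun u => ∑ w, l u w
      -- the choice of the label
      obtain ⟨t, ht1, ht2, ht3⟩ : ∃ t, 1 ≤ t ∧ t ≤ n ∧ ∀ u, u ≠ P → c P + t ≠ c u := by
        by_contra hcon
        push Not at hcon
        have hsub : Finset.Icc 1 n ⊆ (Finset.univ.erase P).image (fun u => c u - c P) := by
          intro t ht
          rw [Finset.mem_Icc] at ht
          obtain ⟨u, hu, he⟩ := hcon t ht.1 ht.2
          exact Finset.mem_image.2 ⟨u, Finset.mem_erase.2 ⟨hu, Finset.mem_univ _⟩, by omega⟩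
        have e1 := Finset.card_le_card hsub
        have e2 : ((Finset.univ.erase P).image (fun u => c u - c P)).card ≤
            (Finset.univ.erase P).card := Finset.card_image_le
        rw [Finset.card_erase_of_mem (Finset.mem_univ _), Finset.card_univ, hcard] at e2
        rw [Nat.card_Icc] at e1
        omega
      let m : V → V → ℕ := fun u w => if hu : u = v then (if w = p then t else 0) else
        if hw : w = v then (if u = p then t else 0) else l ⟨u, hu⟩ ⟨w, hw⟩
      have mv : ∀ w, m v w = if w = p then t else 0 := fun w => by
        simp only [m, dif_pos]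
      have mv' : ∀ u, u ≠ v → m u v = if u = p then t else 0 := fun u hu => by
        simp only [m, dif_neg hu, dif_pos]
      have mo : ∀ u w (hu : u ≠ v) (hw : w ≠ v), m u w = l ⟨u, hu⟩ ⟨w, hw⟩ := fun u w hu hw => by
        simp only [m, dif_neg hu, dif_neg hw]
      have hsum : ∀ g : V → ℕ, ∑ w, g w = g v + ∑ w : ({v}ᶜ : Set V), g w.1 := by
        intro g
        rw [← Finset.add_sum_erase _ _ (Finset.mem_univ v)]
        congr 1
        refine Finset.sum_subtype _ ?_ g
        intro x
        simp
      have cv : ∑ w, m v w = t := by
        rw [Finset.sum_congr rfl fun w _ => mv w]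
        simp
      have cu : ∀ u (hu : u ≠ v), ∑ w, m u w = (if u = p then t else 0) + c ⟨u, hu⟩ := by
        intro u hu
        rw [hsum, mv' u hu]
        congr 1
        exact Finset.sum_congr rfl fun w _ => mo u w.1 hu w.2
      refine ⟨m, ?_, ?_, ?_, ?_⟩
      · intro u w
        by_cases hu : u = v
        · by_cases hw : w = v
          · rw [hu, hw]
          · rw [hu, mv, mv' w hw]
        · by_cases hw : w = v
          · rw [hw, mv, mv' u hu]
          · rw [mo u w hu hw, mo w u hw hu, h1]
      · intro u w
        have hkey : ∀ w, ((if w = p then t else 0) ≠ 0 ↔ G.Adj v w) := by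
          intro w
          by_cases hw : w = p
          · rw [if_pos hw, hw]
            exact ⟨fun _ => hvp, fun _ => by omega⟩
          · rw [if_neg hw]
            exact ⟨fun h => absurd rfl h, fun h => absurd (huni w h) hw⟩
        by_cases hu : u = v
        · rw [hu, mv]; exact hkey w
        · by_cases hw : w = v
          · rw [hw, mv' u hu, G.adj_comm]; exact hkey u
          · rw [mo u w hu hw, h2]
            exact Iff.rfl
      · intro u w
        by_cases hu : u = v
        · rw [hu, mv]; split_ifs <;> omega
        · by_cases hw : w = v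
          · rw [hw, mv' u hu]; split_ifs <;> omega
          · rw [mo u w hu hw]
            have := h3 ⟨u, hu⟩ ⟨w, hw⟩
            omega
      · intro hn3
        -- the neighbour has a positive color
        have hcP : 1 ≤ c P := by
          have hnt' : Nontrivial ({v}ᶜ : Set V) := Fintype.one_lt_card_iff_nontrivial.1 (by omega)
          obtain ⟨q, hq⟩ := hconn.preconnected.exists_adj_of_nontrivial P
          have := (h2 P q).2 hq
          refine le_trans ?_ (Finset.single_le_sum (f := fun w => l P w)
            (fun _ _ => Nat.zero_le _) (Finset.mem_univ q))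
          omega
        have key : ∀ u w, u ≠ v → w ≠ v → G.Adj u w → u ≠ p →
            ∑ z, m u z ≠ ∑ z, m w z := by
          intro u w hu hw huw hup
          rw [cu u hu, cu w hw, if_neg hup]
          by_cases hwp : w = p
          · subst hwp
            rw [if_pos rfl]
            have := ht3 ⟨u, hu⟩ (fun h => hup (congrArg Subtype.val h))
            intro h
            apply this
            change c ⟨w, hw⟩ + t = _
            omega
          · rw [if_neg hwp]
            rcases Nat.lt_or_ge n 3 with hn2 | hn2
            · exfalso
              have h5 : ({(⟨u, hu⟩ : ({v}ᶜ : Set V)), ⟨w, hw⟩, P} : Finset ({v}ᶜ : Set V)).card ≤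
                  n := by
                rw [← hcard]; exact Finset.card_le_univ _
              rw [Finset.card_eq_three.2 ⟨_, _, _, ?_, ?_, ?_, rfl⟩] at h5
              · omega
              · intro h; exact huw.ne (congrArg Subtype.val h)
              · intro h; exact hup (congrArg Subtype.val h)
              · intro h; exact hwp (congrArg Subtype.val h)
            · have := h4 hn2 ⟨u, hu⟩ ⟨w, hw⟩ huw
              simpa using this
        intro u w huw
        by_cases hu : u = v
        · subst hu
          have hwp := huni w huw
          subst hwp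
          rw [cv, cu w hpv, if_pos rfl]
          change t ≠ t + c P
          omega
        · by_cases hw : w = v
          · subst hw
            have hup := huni u huw.symm
            subst hup
            rw [cv, cu u hpv, if_pos rfl]
            change t + c P ≠ t
            omega
          · by_cases hup : u = p
            · have hwp : w ≠ p := fun h => huw.ne (hup.trans h.symm)
              exact (key w u hw hu huw.symm hwp).symm
            · exact key u w hu hw huw hup

/-- The minimum label sum of a nice tree is at most the third power of the number of vertices. -/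
theorem mE_tree_le {V : Type} [Fintype V] (G : SimpleGraph V) (hG : G.IsTree) (hn : Nice G) :
    mE G ≤ ((Fintype.card V * Fintype.card V * Fintype.card V : ℕ) : ℕ∞) := by
  classical
  rw [mE_le_iff]
  obtain ⟨l, h1, h2, h3, h4⟩ := tree_lab _ V G hG rfl
  refine ⟨l, ⟨fun u _ v _ => h1 u v, fun u _ v _ => h2 u v, fun u _ v _ huv => ?_⟩, ?_⟩
  · refine h4 ?_ u v huv
    obtain ⟨w, hw⟩ := hn u v huv
    have h5 : ({u, v, w} : Finset V).card ≤ Fintype.card V := Finset.card_le_univ _
    rw [Finset.card_eq_three.2 ⟨_, _, _, huv.ne, ?_, ?_, rfl⟩] at h5
    · exact h5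
    · rcases hw with ⟨_, h⟩ | ⟨h, _⟩
      · exact h.ne
      · exact h.symm
    · rcases hw with ⟨h, _⟩ | ⟨_, h⟩
      · exact h.symm
      · exact h.ne
  · have e1 : ∑ u : V, ∑ w : V, l u w ≤ ∑ _u : V, ∑ _w : V, Fintype.card V :=
      Finset.sum_le_sum fun u _ => Finset.sum_le_sum fun w _ => h3 u w
    rw [Finset.sum_const, Finset.sum_const, Finset.card_univ, smul_eq_mul, smul_eq_mul,
      ← mul_assoc] at e1
    omega

end Q224.MS
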