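import Pool.Agent.Q224.MS.Abs

/-!
# The reduction: cycles for the variables, pairs of vertices of degree four for the clauses
-/

set_option autoImplicit false

namespace Q224.MS

open Finset

/-- Vertices on the cycles: the variable, the position. -/
abbrev Kc (m : ℕ) := Fin (3 * m) × Fin (2 * m + 2)

/-- The other vertices: leaves for the vertices on the cycles, two vertices for each clause, and
three leaves for each clause. -/
abbrev Rc (m : ℕ) := Kc m ⊕ (Fin m ⊕ (Fin m ⊕ (Fin m × Fin 3)))

/-- The successor. -/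
def sc (m : ℕ) : Equiv.Perm (Kc m) := Equiv.prodCongr (Equiv.refl _) (Equiv.addRight 1)

theorem sc_apply (m : ℕ) (a : Kc m) : sc m a = (a.1, a.2 + 1) := rfl

theorem fin_one (m : ℕ) : ((1 : Fin (2 * m + 2)) : ℕ) = 1 := by
  change 1 % (2 * m + 2) = 1
  exact Nat.mod_eq_of_lt (by omega)

theorem fin_succ {m : ℕ} (i : Fin (2 * m + 2)) : (i + 1).val = (i.val + 1) % (2 * m + 2) := by
  rw [Fin.val_add, fin_one]

theorem sc_one {m : ℕ} (a : Kc m) : sc m a ≠ a := by
  intro h
  have h1 : a.2 + 1 = a.2 := congrArg Prod.snd h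
  have h2 := congrArg Fin.val h1
  rw [fin_succ] at h2
  have := a.2.isLt
  rcases Nat.lt_or_ge (a.2.val + 1) (2 * m + 2) with h3 | h3
  · rw [Nat.mod_eq_of_lt h3] at h2; omega
  · rw [show a.2.val + 1 = 2 * m + 2 by omega, Nat.mod_self] at h2; omega

/-- The parity changes. -/
theorem sc_par {m : ℕ} (i : Fin (2 * m + 2)) : (i + 1).val % 2 = (i.val + 1) % 2 := by
  rw [fin_succ]
  have := i.isLt
  rcases Nat.lt_or_ge (i.val + 1) (2 * m + 2) with h3 | h3
  · rw [Nat.mod_eq_of_lt h3]
  · rw [show i.val + 1 = 2 * m + 2 by omega, Nat.mod_self]; omega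

theorem sc_two {m : ℕ} (hm : 1 ≤ m) (a : Kc m) : sc m (sc m a) ≠ a := by
  intro h
  have h1 : a.2 + 1 + 1 = a.2 := congrArg Prod.snd h
  have h2 := congrArg Fin.val h1
  rw [fin_succ, fin_succ] at h2
  have := a.2.isLt
  rcases Nat.lt_or_ge (a.2.val + 1) (2 * m + 2) with h3 | h3
  · rw [Nat.mod_eq_of_lt h3] at h2
    rcases Nat.lt_or_ge (a.2.val + 1 + 1) (2 * m + 2) with h4 | h4
    · rw [Nat.mod_eq_of_lt h4] at h2; omega
    · rw [show a.2.val + 1 + 1 = 2 * m + 2 by omega, Nat.mod_self] at h2; omega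
  · rw [show a.2.val + 1 = 2 * m + 2 by omega, Nat.mod_self, Nat.mod_eq_of_lt (by omega)] at h2
    omega

section

variable {m : ℕ} (lit : Fin m → Fin 3 → Kc m)

open Classical in
/-- The neighbour outside of the cycles. -/
noncomputable def rho (a : Kc m) : Rc m :=
  if h : ∃ q : Fin m × Fin 3, lit q.1 q.2 = a then .inr (.inl h.choose.1) else .inl a

/-- The edges between the other vertices. -/
def HH : Rc m → Rc m → Prop
  | .inr (.inl c), .inr (.inr (.inl b)) => c = b
  | .inr (.inr (.inl b)), .inr (.inl c) => c = b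
  | .inr (.inr (.inl b)), .inr (.inr (.inr p)) => p.1 = b
  | .inr (.inr (.inr p)), .inr (.inr (.inl b)) => p.1 = b
  | _, _ => False

theorem HH_symm (r r' : Rc m) (h : HH r r') : HH r' r := by
  rcases r with a | c | b | p <;> rcases r' with a' | c' | b' | p' <;> simp only [HH] at h ⊢ <;>
    exact h

variable {lit} (hinj : ∀ c j c' j', lit c j = lit c' j' → c = c' ∧ j = j')

include hinj in
theorem rho_z {a : Kc m} {c : Fin m} : rho lit a = .inr (.inl c) ↔ ∃ j, lit c j = a := by
  unfold rho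
  constructor
  · intro h
    split_ifs at h with h1
    rw [Sum.inr.injEq, Sum.inl.injEq] at h
    exact ⟨h1.choose.2, by rw [← h]; exact h1.choose_spec⟩
  · rintro ⟨j, hj⟩
    have h1 : ∃ q : Fin m × Fin 3, lit q.1 q.2 = a := ⟨(c, j), hj⟩
    rw [dif_pos h1, (hinj _ _ _ _ (h1.choose_spec.trans hj.symm)).1]

theorem rho_leaf {a b : Kc m} : rho lit a = .inl b ↔ a = b ∧ ∀ c j, lit c j ≠ a := by
  unfold rho
  constructor
  · intro h
    split_ifs at h with h1
    rw [Sum.inl.injEq] at h
    exact ⟨h, fun c j hc => h1 ⟨(c, j), hc⟩⟩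
  · rintro ⟨rfl, h⟩
    rw [dif_neg]
    rintro ⟨q, hq⟩
    exact h _ _ hq

theorem rho_b {a : Kc m} {x : Fin m ⊕ (Fin m × Fin 3)} : rho lit a ≠ .inr (.inr x) := by
  unfold rho
  split_ifs <;> simp

theorem ite_sum {ι : Type} [Fintype ι] (c : ι) [∀ b : ι, Decidable (c = b)] :
    ∑ b, (if c = b then 1 else 0) = 1 := by
  rw [Finset.sum_eq_single c]
  · rw [if_pos rfl]
  · intro b _ hb
    rw [if_neg (fun h => hb h.symm)]
  · intro h
    exact absurd (Finset.mem_univ _) h

theorem ite_sum' {ι : Type} [Fintype ι] (c : ι) [∀ b : ι, Decidable (b = c)] :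
    ∑ b, (if b = c then 1 else 0) = 1 := by
  rw [Finset.sum_eq_single c]
  · rw [if_pos rfl]
  · intro b _ hb
    rw [if_neg hb]
  · intro h
    exact absurd (Finset.mem_univ _) h

open Classical in
theorem deg_leaf (a : Kc m) : ∑ r' : Rc m, (if HH (.inl a) r' then 1 else 0) = 0 := by
  refine Finset.sum_eq_zero fun r' _ => ?_
  rw [if_neg]
  rcases r' with a' | c' | b' | p' <;> simp [HH]

open Classical in
theorem deg_z (c : Fin m) : ∑ r' : Rc m, (if HH (.inr (.inl c)) r' then 1 else 0) = 1 := by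
  rw [Fintype.sum_eq_single (.inr (.inr (.inl c))), if_pos (by exact rfl)]
  intro r' hr
  rw [if_neg]
  rcases r' with a' | c' | b' | p' <;> simp only [HH, not_false_eq_true]
  rintro rfl
  exact hr rfl

open Classical in
theorem deg_b (b : Fin m) : ∑ r' : Rc m, (if HH (.inr (.inr (.inl b))) r' then 1 else 0) = 4 := by
  rw [Fintype.sum_sum_type, Fintype.sum_sum_type, Fintype.sum_sum_type]
  have h1 : ∑ a : Kc m, (if HH (.inr (.inr (.inl b))) (.inl a) then 1 else 0) = 0 :=
    Finset.sum_eq_zero fun a _ => if_neg (by simp [HH])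
  have h2 : ∑ c : Fin m, (if HH (.inr (.inr (.inl b))) (.inr (.inl c)) then 1 else 0) = 1 := by
    rw [Fintype.sum_eq_single b, if_pos (by exact rfl)]
    intro c hc
    exact if_neg hc
  have h3 : ∑ c : Fin m, (if HH (.inr (.inr (.inl b))) (.inr (.inr (.inl c))) then 1 else 0) = 0 :=
    Finset.sum_eq_zero fun a _ => if_neg (by simp [HH])
  have h4 : ∑ p : Fin m × Fin 3,
      (if HH (.inr (.inr (.inl b))) (.inr (.inr (.inr p))) then 1 else 0) = 3 := by
    rw [Fintype.sum_prod_type, Fintype.sum_eq_single b]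
    · rw [Finset.sum_congr rfl fun j _ => if_pos (by exact rfl)]
      simp
    · intro c hc
      exact Finset.sum_eq_zero fun j _ => if_neg hc
  rw [h1, h2, h3, h4]
  rfl

open Classical in
theorem deg_bl (p : Fin m × Fin 3) :
    ∑ r' : Rc m, (if HH (.inr (.inr (.inr p))) r' then 1 else 0) = 1 := by
  rw [Fintype.sum_eq_single (.inr (.inr (.inl p.1))), if_pos (by exact rfl)]
  intro r' hr
  rw [if_neg]
  rcases r' with a' | c' | b' | p' <;> simp only [HH, not_false_eq_true]
  rintro rfl
  exact hr rfl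

open Classical in
theorem sum_HH : ∑ r : Rc m, ∑ r' : Rc m, (if HH r r' then 1 else 0) = 8 * m := by
  rw [Fintype.sum_sum_type, Fintype.sum_sum_type, Fintype.sum_sum_type]
  simp only [deg_leaf, deg_z, deg_b, deg_bl]
  simp
  ring

include hinj in
theorem sum_lit (c : Fin m) {f : Kc m → ℕ} (h : ∀ a, f a ≠ 0 → ∃ j, lit c j = a) :
    ∑ a, f a = ∑ j, f (lit c j) := by
  rw [← Finset.sum_subset (Finset.subset_univ (Finset.univ.image (lit c)))]
  · rw [Finset.sum_image]
    intro j _ j' _ hj
    exact (hinj _ _ _ _ hj).2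
  · intro a _ ha
    by_contra hc
    obtain ⟨j, hj⟩ := h a hc
    exact ha (Finset.mem_image.2 ⟨j, Finset.mem_univ _, hj⟩)

/-- The literal is true. -/
def litT (α : Fin (3 * m) → Bool) (a : Kc m) : Prop := (a.2.val % 2 = 0 ↔ α a.1 = true)

/-- The budget. -/
def bud (m : ℕ) : ℕ := 15 * m * (m + 1) + 4 * m

theorem two_bud (m : ℕ) : 2 * bud m = 5 * Fintype.card (Kc m) + 8 * m := by
  unfold bud
  rw [Fintype.card_prod, Fintype.card_fin, Fintype.card_fin]
  ring

include hinj in
theorem red_forward (hm : 1 ≤ m)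
    (h : FeasL Finset.univ (Ad (sc m) (rho lit) HH) (bud m)) :
    ∃ α : Fin (3 * m) → Bool, ∀ c, ∃ j, litT α (lit c j) := by
  classical
  obtain ⟨l, hl, ht⟩ := h
  rw [two_bud, ← sum_HH] at ht
  obtain ⟨h1, h2⟩ := forward (sc_two hm) hl ht
  set s := sc m with hs
  let o : Kc m → ℕ := fun a => l (.inl a) (.inr (rho lit a)) - 1
  let p : Kc m → ℕ := fun a => l (.inl a) (.inl (s a)) - 1
  have hh : ∀ a, o a + p (s.symm a) + o (s a) + p (s a) = 1 := by
    intro a
    have := h1 a
    simp only [o, p, Equiv.apply_symm_apply]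
    exact this
  let y : Kc m → ℕ := fun a => o a + p a + p (s.symm a)
  have hpar : ∀ a, (y a + y (s a)) % 2 = 1 := by
    intro a
    have := hh a
    simp only [y, Equiv.symm_apply_apply]
    omega
  refine ⟨fun x => decide (y (x, 0) % 2 = 1), fun c => ?_⟩
  have hall : ∀ (n : ℕ) (x : Fin (3 * m)) (i : Fin (2 * m + 2)), i.val = n →
      (y (x, i) % 2 = 1 ↔ (i.val % 2 = 0 ↔ y (x, 0) % 2 = 1)) := by
    intro n
    induction n with
    | zero =>
      intro x i hi
      have : i = 0 := Fin.ext hi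
      subst this
      simp
    | succ n ih =>
      intro x i hi
      have hlt := i.isLt
      have h3 := ih x ⟨n, by omega⟩ rfl
      have h4 := hpar (x, ⟨n, by omega⟩)
      have h5 : s (x, ⟨n, by omega⟩) = (x, i) := by
        rw [hs, sc_apply]
        refine Prod.ext rfl (Fin.ext ?_)
        simp only
        rw [fin_succ]
        simp only
        rw [Nat.mod_eq_of_lt (by omega)]
        omega
      rw [h5] at h4
      simp only at h3
      have h6 : y (x, i) % 2 = 1 ↔ ¬ (y (x, ⟨n, by omega⟩) % 2 = 1) := by omega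
      rw [h6, h3, hi]
      have h7 : (n + 1) % 2 = 0 ↔ ¬ (n % 2 = 0) := by omega
      rw [h7]
      tauto
  -- the clause vertex
  have hz : ∑ w, l (.inr (.inr (.inl c))) w = ∑ j, (o (lit c j) + 1) + 1 := by
    rw [Fintype.sum_sum_type]
    congr 1
    · rw [sum_lit hinj c (f := fun a => l (.inr (.inr (.inl c))) (.inl a))]
      · refine Finset.sum_congr rfl fun j _ => ?_
        have e1 : rho lit (lit c j) = .inr (.inl c) := (rho_z hinj).2 ⟨j, rfl⟩
        have e2 := (hl.supp (.inl (lit c j)) (mem_univ _) (.inr (rho lit (lit c j)))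
          (mem_univ _)).2 rfl
        simp only [o]
        rw [hl.symm (.inr (.inr (.inl c))) (mem_univ _) (.inl (lit c j)) (mem_univ _)]
        rw [e1] at e2 ⊢
        omega
      · intro a ha
        have := (hl.supp (.inr (.inr (.inl c))) (mem_univ _) (.inl a) (mem_univ _)).1 ha
        exact (rho_z hinj).1 this
    · rw [Finset.sum_congr rfl fun r' _ => h2 _ r']
      exact deg_z c
  have hb : ∑ w, l (.inr (.inr (.inr (.inl c)))) w = 4 := by
    rw [Fintype.sum_sum_type, Finset.sum_congr rfl fun r' _ => h2 _ r', deg_b]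
    rw [Finset.sum_eq_zero]
    intro a _
    by_contra hc
    exact rho_b ((hl.supp (.inr (.inr (.inr (.inl c)))) (mem_univ _) (.inl a) (mem_univ _)).1 hc)
  have hne := hl.ne (.inr (.inr (.inl c))) (mem_univ _) (.inr (.inr (.inr (.inl c)))) (mem_univ _)
    rfl
  rw [hz, hb] at hne
  have hex : ∃ j, 1 ≤ o (lit c j) := by
    by_contra hc
    push Not at hc
    apply hne
    rw [Finset.sum_congr rfl fun j _ => show o (lit c j) + 1 = 1 by have := hc j; omega]
    simp
  obtain ⟨j, hj⟩ := hex
  refine ⟨j, ?_⟩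
  have e1 := hh (lit c j)
  have e2 := hh (s.symm (lit c j))
  rw [Equiv.apply_symm_apply] at e2
  have e3 : y (lit c j) % 2 = 1 := by
    simp only [y]
    omega
  have e4 := (hall _ (lit c j).1 (lit c j).2 rfl).1 e3
  unfold litT
  rw [decide_eq_true_eq]
  exact e4

include hinj in
theorem red_backward (hm : 1 ≤ m) {α : Fin (3 * m) → Bool}
    (h : ∀ c, ∃ j, litT α (lit c j)) :
    FeasL Finset.univ (Ad (sc m) (rho lit) HH) (bud m) := by
  classical
  let t : Kc m → ℕ := fun a => if litT α a then 1 else 0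
  have ht : ∀ a, t a + t (sc m a) = 1 := by
    intro a
    have h1 : litT α (sc m a) ↔ ¬ litT α a := by
      unfold litT
      rw [sc_apply]
      simp only
      rw [sc_par]
      have : (a.2.val + 1) % 2 = 0 ↔ ¬ (a.2.val % 2 = 0) := by omega
      rw [this]
      tauto
    simp only [t]
    by_cases h2 : litT α a
    · rw [if_pos h2, if_neg (by rw [h1]; exact not_not.2 h2)]
    · rw [if_neg h2, if_pos (h1.2 h2)]
  have hz : ∀ c : Fin m, ∑ b, (if rho lit b = .inr (.inl c) then 1 + t b else 0) =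
      3 + ∑ j, t (lit c j) := by
    intro c
    rw [sum_lit hinj c (f := fun b => if rho lit b = .inr (.inl c) then 1 + t b else 0)]
    · rw [Finset.sum_congr rfl fun j _ => if_pos ((rho_z hinj).2 ⟨j, rfl⟩), Finset.sum_add_distrib]
      simp
    · intro a ha
      have : rho lit a = .inr (.inl c) := by
        by_contra hc
        rw [if_neg hc] at ha
        exact ha rfl
      exact (rho_z hinj).1 this
  have hx : ∀ x : Fin m ⊕ (Fin m × Fin 3),
      ∑ b, (if rho lit b = .inr (.inr x) then 1 + t b else 0) = 0 := by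
    intro x
    refine Finset.sum_eq_zero fun b _ => ?_
    rw [if_neg rho_b]
  have hge : ∀ c : Fin m, 1 ≤ ∑ j, t (lit c j) := by
    intro c
    obtain ⟨j, hj⟩ := h c
    refine le_trans ?_ (Finset.single_le_sum (fun _ _ => Nat.zero_le _) (Finset.mem_univ j))
    simp only [t]
    rw [if_pos hj]
  have hle : ∀ a, t a ≤ 1 := by
    intro a
    simp only [t]
    split_ifs <;> omega
  refine backward sc_one (sc_two hm) HH_symm t ht ?_ ?_ (by rw [sum_HH, two_bud])
  · intro a
    rcases hr : rho lit a with b | c | x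
    · have hab := rho_leaf.1 hr
      rw [deg_leaf]
      rw [Finset.sum_eq_single a]
      · rw [if_pos hr]
        omega
      · intro b' _ hb'
        rw [if_neg]
        intro h3
        exact hb' ((rho_leaf.1 h3).1.trans hab.1.symm)
      · intro h3
        exact absurd (Finset.mem_univ _) h3
    · rw [hz, deg_z]
      have := hge c
      have := hle a
      omega
    · exact absurd hr rho_b
  · intro r r' hrr
    rcases r with a | c | b | p <;> rcases r' with a' | c' | b' | p' <;> simp only [HH] at hrr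
    · subst hrr
      rw [hz, deg_z, hx, deg_b]
      have := hge c
      omega
    · subst hrr
      rw [hz, deg_z, hx, deg_b]
      have := hge c'
      omega
    · subst hrr
      rw [hx, deg_b, hx, deg_bl]
      omega
    · subst hrr
      rw [hx, deg_b, hx, deg_bl]
      omega

/-- The graph is nice. -/
theorem red_nice (hm : 1 ≤ m) : NiceOn Finset.univ (Ad (sc m) (rho lit) (HH (m := m))) := by
  have hcyc : ∀ (a : Kc m) (w : Kc m ⊕ Rc m), ∃ b, .inl b ≠ w ∧
      Ad (sc m) (rho lit) (HH (m := m)) (.inl a) (.inl b) := by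
    intro a w
    by_cases h : (.inl (sc m a) : Kc m ⊕ Rc m) = w
    · refine ⟨(sc m).symm a, ?_, Or.inr (by simp)⟩
      rw [← h]
      intro h2
      rw [Sum.inl.injEq] at h2
      apply sc_two hm a
      rw [← h2]; simp
    · exact ⟨sc m a, h, Or.inl rfl⟩
  rintro (a | r) - v - huv
  · obtain ⟨b, hb1, hb2⟩ := hcyc a v
    exact ⟨.inl b, mem_univ _, Or.inl ⟨hb1, hb2⟩⟩
  · rcases v with a | r'
    · obtain ⟨b, hb1, hb2⟩ := hcyc a (.inr r)
      exact ⟨.inl b, mem_univ _, Or.inr ⟨hb1, hb2⟩⟩
    · change HH r r' at huv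
      rcases r with a | c | b | p <;> rcases r' with a' | c' | b' | p' <;> simp only [HH] at huv
      · exact ⟨.inr (.inr (.inr (.inr (b', 0)))), mem_univ _, Or.inr ⟨by simp, rfl⟩⟩
      · exact ⟨.inr (.inr (.inr (.inr (b, 0)))), mem_univ _, Or.inl ⟨by simp, rfl⟩⟩
      · exact ⟨.inr (.inr (.inl b)), mem_univ _, Or.inl ⟨by simp, rfl⟩⟩
      · exact ⟨.inr (.inr (.inl b')), mem_univ _, Or.inr ⟨by simp, rfl⟩⟩

end

end Q224.MS
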