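import Pool.Agent.Q224.MS.Red
import Pool.Agent.Q224.UC.Bip

/-!
# The reduction from 3SAT
-/

set_option autoImplicit false

namespace Pool.Agent.NPC.Q224MS

open _root_.Q224.UC _root_.Q224.PL _root_.Q224.MS Pool.Agent.NPC.Q224PL Pool.Agent.NPC.Q224UC Finset

/-- The literals of a clause. -/
def lt3 (c : Cl3) : Fin 3 → Lit ℕ
  | 0 => c.1
  | 1 => c.2.1
  | 2 => c.2.2

theorem lt3_lt {φ : List Cl3} (hb : Bounded3 φ) (c : Fin φ.length) (j : Fin 3) :
    (lt3 φ[c] j).2 < 3 * φ.length := by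
  obtain ⟨h1, h2, h3⟩ := hb φ[c] (List.getElem_mem c.isLt)
  fin_cases j
  · exact h1
  · exact h2
  · exact h3

theorem bt_le (b : Bool) : bt b ≤ 1 := by
  cases b <;> simp [bt]

/-- The place of the literals. -/
def litF {φ : List Cl3} (hb : Bounded3 φ) (c : Fin φ.length) (j : Fin 3) : Kc φ.length :=
  (⟨(lt3 φ[c] j).2, lt3_lt hb c j⟩,
    ⟨2 * c.val + (1 - bt (lt3 φ[c] j).1), by have := c.isLt; omega⟩)

theorem lt3_inj {c : Cl3} (hd : c.1.2 ≠ c.2.1.2 ∧ c.1.2 ≠ c.2.2.2 ∧ c.2.1.2 ≠ c.2.2.2)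
    {j j' : Fin 3} (h : (lt3 c j).2 = (lt3 c j').2) : j = j' := by
  obtain ⟨h1, h2, h3⟩ := hd
  fin_cases j <;> fin_cases j' <;> simp only [lt3] at h ⊢
  all_goals first | rfl | exact absurd h h1 | exact absurd h h2 | exact absurd h h3 |
    exact absurd h.symm h1 | exact absurd h.symm h2 | exact absurd h.symm h3

theorem litF_inj {φ : List Cl3} (hd : Distinct3 φ) (hb : Bounded3 φ) (c : Fin φ.length) (j : Fin 3)
    (c' : Fin φ.length) (j' : Fin 3) (h : litF hb c j = litF hb c' j') : c = c' ∧ j = j' := by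
  have h1 : (lt3 φ[c] j).2 = (lt3 φ[c'] j').2 := congrArg (fun p => p.1.val) h
  have h2 : 2 * c.val + (1 - bt (lt3 φ[c] j).1) = 2 * c'.val + (1 - bt (lt3 φ[c'] j').1) :=
    congrArg (fun p => p.2.val) h
  have h3 := bt_le (lt3 φ[c] j).1
  have h4 : c = c' := Fin.ext (by omega)
  subst h4
  exact ⟨rfl, lt3_inj (hd _ (List.getElem_mem c.isLt)) h1⟩

theorem isLit_iff {c : Cl3} {x b : ℕ} :
    isLit c x b = true ↔ ∃ j, x = (lt3 c j).2 ∧ b = bt (lt3 c j).1 := by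
  simp only [isLit, Bool.or_eq_true, Bool.and_eq_true, decide_eq_true_eq]
  constructor
  · rintro ((h | h) | h)
    · exact ⟨0, h⟩
    · exact ⟨1, h⟩
    · exact ⟨2, h⟩
  · rintro ⟨j, h⟩
    fin_cases j
    · exact Or.inl (Or.inl h)
    · exact Or.inl (Or.inr h)
    · exact Or.inr h

/-- A literal of the clause `i / 2` is at the position `i` of the cycle of `x`. -/
def usedB (φ : List Cl3) (x i : ℕ) : Bool := litIn φ (i / 2) x (1 - i % 2)

theorem usedB_iff {φ : List Cl3} (hb : Bounded3 φ) (a : Kc φ.length) (c : ℕ) :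
    (usedB φ a.1 a.2 = true ∧ c = a.2.val / 2) ↔ ∃ (hc : c < φ.length) (j : Fin 3),
      litF hb ⟨c, hc⟩ j = a := by
  unfold usedB
  rw [litIn_iff]
  constructor
  · rintro ⟨⟨cl, h1, h2⟩, rfl⟩
    obtain ⟨h3, h4⟩ := List.getElem?_eq_some_iff.1 h1
    obtain ⟨j, h5, h6⟩ := isLit_iff.1 h2
    refine ⟨h3, j, ?_⟩
    subst h4
    refine Prod.ext (Fin.ext h5.symm) (Fin.ext ?_)
    change 2 * (a.2.val / 2) + (1 - bt (lt3 φ[a.2.val / 2] j).1) = a.2.val
    have := bt_le (lt3 φ[a.2.val / 2] j).1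
    omega
  · rintro ⟨hc, j, rfl⟩
    have h1 := bt_le (lt3 φ[c] j).1
    have e : (litF hb ⟨c, hc⟩ j).2.val = 2 * c + (1 - bt (lt3 φ[c] j).1) := rfl
    have e1 : (litF hb ⟨c, hc⟩ j).1.val = (lt3 φ[c] j).2 := rfl
    rw [e, e1]
    have e2 : (2 * c + (1 - bt (lt3 φ[c] j).1)) / 2 = c := by omega
    have e3 : 1 - (2 * c + (1 - bt (lt3 φ[c] j).1)) % 2 = bt (lt3 φ[c] j).1 := by omega
    rw [e2, e3]
    exact ⟨⟨φ[c], List.getElem?_eq_getElem hc, isLit_iff.2 ⟨j, rfl, rfl⟩⟩, rfl⟩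

theorem used_iff {φ : List Cl3} (hb : Bounded3 φ) (a : Kc φ.length) :
    usedB φ a.1 a.2 = true ↔ ∃ c j, litF hb c j = a := by
  constructor
  · intro h
    obtain ⟨hc, j, h⟩ := (usedB_iff hb a _).1 ⟨h, rfl⟩
    exact ⟨_, j, h⟩
  · rintro ⟨c, j, h⟩
    exact ((usedB_iff hb a c.val).2 ⟨c.isLt, j, h⟩).1

/-- The vertices. -/
def vM (φ : List Cl3) : List W :=
  (List.range (3 * φ.length)).flatMap (fun x =>
    (List.range (2 * φ.length + 2)).map (fun i => ((0, x, i) : W))) ++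
  ((List.range (3 * φ.length)).flatMap (fun x =>
    (List.range (2 * φ.length + 2)).map (fun i => ((1, x, i) : W))) ++
  ((List.range φ.length).map (fun c => ((2, c, 0) : W)) ++
  ((List.range φ.length).map (fun c => ((3, c, 0) : W)) ++
  (List.range φ.length).flatMap (fun c =>
    (List.range 3).map (fun j => ((4, c, j) : W))))))

/-- The edges. -/
def rM (φ : List Cl3) (u v : W) : Bool :=
  (decide (u.1 = 0) && (decide (v.1 = 0) && (decide (v.2.1 = u.2.1) &&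
    decide (v.2.2 = (u.2.2 + 1) % (2 * φ.length + 2))))) ||
  (decide (u.1 = 0) && (decide (v.1 = 1) && (decide (v.2 = u.2) && !usedB φ u.2.1 u.2.2))) ||
  (decide (u.1 = 0) && (decide (v.1 = 2) && (decide (v.2.1 = u.2.2 / 2) &&
    usedB φ u.2.1 u.2.2))) ||
  (decide (u.1 = 2) && (decide (v.1 = 3) && decide (v.2.1 = u.2.1))) ||
  (decide (u.1 = 3) && (decide (v.1 = 4) && decide (v.2.1 = u.2.1)))

theorem rM_iff {φ : List Cl3} {u v : W} : rM φ u v = true ↔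
    (u.1 = 0 ∧ v.1 = 0 ∧ v.2.1 = u.2.1 ∧ v.2.2 = (u.2.2 + 1) % (2 * φ.length + 2)) ∨
    (u.1 = 0 ∧ v.1 = 1 ∧ v.2 = u.2 ∧ ¬ usedB φ u.2.1 u.2.2 = true) ∨
    (u.1 = 0 ∧ v.1 = 2 ∧ v.2.1 = u.2.2 / 2 ∧ usedB φ u.2.1 u.2.2 = true) ∨
    (u.1 = 2 ∧ v.1 = 3 ∧ v.2.1 = u.2.1) ∨ (u.1 = 3 ∧ v.1 = 4 ∧ v.2.1 = u.2.1) := by
  simp only [rM, Bool.or_eq_true, Bool.and_eq_true, decide_eq_true_eq, or_assoc,
    Bool.not_eq_true', Bool.not_eq_true]

/-- The vertices as structured vertices. -/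
def emb (m : ℕ) : Kc m ⊕ Rc m → W
  | .inl a => (0, a.1.val, a.2.val)
  | .inr (.inl a) => (1, a.1.val, a.2.val)
  | .inr (.inr (.inl c)) => (2, c.val, 0)
  | .inr (.inr (.inr (.inl c))) => (3, c.val, 0)
  | .inr (.inr (.inr (.inr p))) => (4, p.1.val, p.2.val)

theorem emb_inj (m : ℕ) : Function.Injective (emb m) := by
  rintro (⟨a, a'⟩ | ⟨a, a'⟩ | c | c | ⟨c, j⟩) (⟨b, b'⟩ | ⟨b, b'⟩ | d | d | ⟨d, k⟩) h
  all_goals first
    | (have hh := congrArg Prod.fst h; simp [emb] at hh; done)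
    | skip
  · have h1 : a.val = b.val := congrArg (fun w => w.2.1) h
    have h2 : a'.val = b'.val := congrArg (fun w => w.2.2) h
    rw [Fin.ext h1, Fin.ext h2]
  · have h1 : a.val = b.val := congrArg (fun w => w.2.1) h
    have h2 : a'.val = b'.val := congrArg (fun w => w.2.2) h
    rw [Fin.ext h1, Fin.ext h2]
  · have h1 : c.val = d.val := congrArg (fun w => w.2.1) h
    rw [Fin.ext h1]
  · have h1 : c.val = d.val := congrArg (fun w => w.2.1) h
    rw [Fin.ext h1]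
  · have h1 : c.val = d.val := congrArg (fun w => w.2.1) h
    have h2 : j.val = k.val := congrArg (fun w => w.2.2) h
    rw [Fin.ext h1, Fin.ext h2]

theorem emb_image (φ : List Cl3) :
    (Finset.univ : Finset (Kc φ.length ⊕ Rc φ.length)).image (emb φ.length) =
      (vM φ).toFinset := by
  ext w
  rw [Finset.mem_image, List.mem_toFinset]
  unfold vM
  simp only [List.mem_append, List.mem_flatMap, List.mem_map, List.mem_range, Finset.mem_univ,
    true_and]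
  constructor
  · rintro ⟨⟨a, a'⟩ | ⟨a, a'⟩ | c | c | ⟨c, j⟩, rfl⟩
    · exact Or.inl ⟨a, a.isLt, a', a'.isLt, rfl⟩
    · exact Or.inr (Or.inl ⟨a, a.isLt, a', a'.isLt, rfl⟩)
    · exact Or.inr (Or.inr (Or.inl ⟨c, c.isLt, rfl⟩))
    · exact Or.inr (Or.inr (Or.inr (Or.inl ⟨c, c.isLt, rfl⟩)))
    · exact Or.inr (Or.inr (Or.inr (Or.inr ⟨c, c.isLt, j, j.isLt, rfl⟩)))
  · rintro (⟨x, hx, i, hi, rfl⟩ | ⟨x, hx, i, hi, rfl⟩ | ⟨c, hc, rfl⟩ | ⟨c, hc, rfl⟩ |
      ⟨c, hc, j, hj, rfl⟩)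
    · exact ⟨.inl (⟨x, hx⟩, ⟨i, hi⟩), rfl⟩
    · exact ⟨.inr (.inl (⟨x, hx⟩, ⟨i, hi⟩)), rfl⟩
    · exact ⟨.inr (.inr (.inl ⟨c, hc⟩)), rfl⟩
    · exact ⟨.inr (.inr (.inr (.inl ⟨c, hc⟩))), rfl⟩
    · exact ⟨.inr (.inr (.inr (.inr (⟨c, hc⟩, ⟨j, hj⟩)))), rfl⟩

theorem succ_iff {m : ℕ} (a b : Kc m) :
    (b.1.val = a.1.val ∧ b.2.val = (a.2.val + 1) % (2 * m + 2)) ↔ b = sc m a := by
  rw [sc_apply, Prod.ext_iff, Fin.ext_iff, Fin.ext_iff, fin_succ]

theorem emb_adj {φ : List Cl3} (hd : Distinct3 φ) (hb : Bounded3 φ)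
    (u v : Kc φ.length ⊕ Rc φ.length) :
    Ad (sc φ.length) (rho (litF hb)) HH u v ↔ emb φ.length u ≠ emb φ.length v ∧
      (rM φ (emb φ.length u) (emb φ.length v) = true ∨
        rM φ (emb φ.length v) (emb φ.length u) = true) := by
  have hinj := litF_inj hd hb
  rw [(emb_inj φ.length).ne_iff, rM_iff, rM_iff]
  have hleaf : ∀ a b : Kc φ.length, rho (litF hb) a = .inl b ↔
      (b.1.val, b.2.val) = (a.1.val, a.2.val) ∧ ¬ usedB φ a.1.val a.2.val = true := by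
    intro a b
    rw [rho_leaf, used_iff hb]
    push Not
    refine and_congr ?_ Iff.rfl
    constructor
    · rintro rfl
      rfl
    · intro h
      obtain ⟨h1, h2⟩ := Prod.mk.inj h
      exact Prod.ext (Fin.ext h1.symm) (Fin.ext h2.symm)
  have hz : ∀ (a : Kc φ.length) (c : Fin φ.length), rho (litF hb) a = .inr (.inl c) ↔
      c.val = a.2.val / 2 ∧ usedB φ a.1.val a.2.val = true := by
    intro a c
    rw [rho_z hinj, and_comm, usedB_iff hb]
    exact ⟨fun ⟨j, h⟩ => ⟨c.isLt, j, h⟩, fun ⟨_, j, h⟩ => ⟨j, h⟩⟩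
  rcases u with a | a | c | c | p <;> rcases v with b | b | d | d | q
  · simp only [Ad, emb, true_and, succ_iff, zero_ne_one, OfNat.zero_ne_ofNat, false_and, or_false,
      ne_eq, Sum.inl.injEq]
    constructor
    · rintro (rfl | rfl)
      · exact ⟨(sc_one a).symm, Or.inl rfl⟩
      · exact ⟨sc_one b, Or.inr rfl⟩
    · exact fun h => h.2
  · simp [Ad, emb, hleaf]
  · simp [Ad, emb, hz]
  · simp [Ad, emb, rho_b]
  · simp [Ad, emb, rho_b]
  · simp [Ad, emb, hleaf]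
  · simp [Ad, emb, HH]
  · simp [Ad, emb, HH]
  · simp [Ad, emb, HH]
  · simp [Ad, emb, HH]
  · simp [Ad, emb, hz]
  · simp [Ad, emb, HH]
  · simp [Ad, emb, HH]
  · simp [Ad, emb, HH, Fin.val_inj] <;> exact eq_comm
  · simp [Ad, emb, HH]
  · simp [Ad, emb, rho_b]
  · simp [Ad, emb, HH]
  · simp [Ad, emb, HH, Fin.val_inj] <;> exact eq_comm
  · simp [Ad, emb, HH]
  · simp [Ad, emb, HH, Fin.val_inj] <;> exact eq_comm
  · simp [Ad, emb, rho_b]
  · simp [Ad, emb, HH]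
  · simp [Ad, emb, HH]
  · simp [Ad, emb, HH, Fin.val_inj] <;> exact eq_comm
  · simp [Ad, emb, HH]

/-- The whole instance. -/
def redM (φ : List Cl3) : (List ℕ × List (ℕ × ℕ)) × ℕ := (code (vM φ) (rM φ), bud φ.length)

theorem redM_nice {φ : List Cl3} (hd : Distinct3 φ) (hb : Bounded3 φ) (hne : φ ≠ []) :
    Nice (cG (redM φ).1) := by
  unfold redM
  rw [nice_code_iff, ← emb_image]
  exact (niceOn_image (emb_inj _).injOn fun u _ v _ => emb_adj hd hb u v).1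
    (red_nice (List.length_pos_iff.2 hne))

theorem litT_iff {φ : List Cl3} (hb : Bounded3 φ) (α : Fin (3 * φ.length) → Bool)
    (c : Fin φ.length) (j : Fin 3) :
    litT α (litF hb c j) ↔ α ⟨(lt3 φ[c] j).2, lt3_lt hb c j⟩ = (lt3 φ[c] j).1 := by
  unfold litT
  have e : (litF hb c j).2.val = 2 * c.val + (1 - bt (lt3 φ[c] j).1) := rfl
  have e1 : (litF hb c j).1 = ⟨(lt3 φ[c] j).2, lt3_lt hb c j⟩ := rfl
  rw [e, e1]
  cases (lt3 φ[c] j).1 with
  | false =>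
    have : (2 * c.val + (1 - bt false)) % 2 = 1 := by simp [bt]
    rw [this]
    simp
  | true =>
    have : (2 * c.val + (1 - bt true)) % 2 = 0 := by simp [bt]
    rw [this]
    simp

theorem sat_iff {φ : List Cl3} (hb : Bounded3 φ) :
    SAT3 φ ↔ ∃ α : Fin (3 * φ.length) → Bool, ∀ c, ∃ j, litT α (litF hb c j) := by
  constructor
  · rintro ⟨τ, hτ⟩
    refine ⟨fun x => τ x.val, fun c => ?_⟩
    rcases hτ φ[c] (List.getElem_mem c.isLt) with h | h | h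
    · exact ⟨0, (litT_iff hb _ c 0).2 h⟩
    · exact ⟨1, (litT_iff hb _ c 1).2 h⟩
    · exact ⟨2, (litT_iff hb _ c 2).2 h⟩
  · rintro ⟨α, hα⟩
    refine ⟨fun x => if h : x < 3 * φ.length then α ⟨x, h⟩ else false, ?_⟩
    intro cl hcl
    obtain ⟨i, hi, rfl⟩ := List.getElem_of_mem hcl
    obtain ⟨j, hj⟩ := hα ⟨i, hi⟩
    rw [litT_iff] at hj
    have hlt : (lt3 φ[i] j).2 < 3 * φ.length := lt3_lt hb ⟨i, hi⟩ j
    have h2 : (fun x => if h : x < 3 * φ.length then α ⟨x, h⟩ else false) (lt3 φ[i] j).2 =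
        (lt3 φ[i] j).1 := by
      simp only
      rw [dif_pos hlt]
      exact hj
    fin_cases j
    · exact Or.inl h2
    · exact Or.inr (Or.inl h2)
    · exact Or.inr (Or.inr h2)

theorem redM_iff {φ : List Cl3} (hd : Distinct3 φ) (hb : Bounded3 φ) (hne : φ ≠ []) :
    SAT3 φ ↔ mE (cG (redM φ).1) ≤ ((redM φ).2 : ℕ∞) := by
  unfold redM
  rw [mE_code_iff, ← emb_image,
    ← feasL_image (emb_inj _).injOn (fun u _ v _ => emb_adj hd hb u v), sat_iff hb]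
  have hm : 1 ≤ φ.length := List.length_pos_iff.2 hne
  constructor
  · rintro ⟨α, hα⟩
    exact red_backward (litF_inj hd hb) hm hα
  · intro h
    exact red_forward (litF_inj hd hb) hm h

end Pool.Agent.NPC.Q224MS
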