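import Pool.Agent.Q224.MS.Red2

/-!
# NP-completeness of MIN-SUM
-/

set_option autoImplicit false

namespace Pool.Agent.NPC.Q224MS

open _root_.Q224.UC _root_.Q224.PL _root_.Q224.MS Pool.Agent.NPC.Q224PL Pool.Agent.NPC.Q224UC Finset

variable {α : Type} [TEnc α]

@[fun_prop]
theorem p_usedB {φ : α → List Cl3} {x i : α → ℕ} (hφ : Poly φ) (hx : Poly x) (hi : Poly i) :
    Poly (fun a => usedB (φ a) (x a) (i a)) := by
  unfold usedB
  fun_prop

@[fun_prop]
theorem p_rM {φ : α → List Cl3} {u v : α → W} (hφ : Poly φ) (hu : Poly u) (hv : Poly v) :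
    Poly (fun a => rM (φ a) (u a) (v a)) := by
  unfold rM
  fun_prop

theorem p_vM : Poly vM := by
  unfold vM
  have hN : Poly (fun φ : List Cl3 => List.range (3 * φ.length)) :=
    (UPoly.mul (UPoly.const 3) (UPoly.length Poly.id)).range
  have hM : Poly (fun φ : List Cl3 => List.range (2 * φ.length + 2)) :=
    (UPoly.add (UPoly.mul (UPoly.const 2) (UPoly.length Poly.id)) (UPoly.const 2)).range
  have hm : Poly (fun φ : List Cl3 => List.range φ.length) := (UPoly.length Poly.id).range
  have h3 : Poly (fun _ : List Cl3 × ℕ => List.range 3) := Poly.const _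
  refine Poly.append ?_ (Poly.append ?_ (Poly.append ?_ (Poly.append ?_ ?_)))
  · refine Poly.flatMap (F := fun (φ : List Cl3) x => (List.range (2 * φ.length + 2)).map
      (fun a => ((0, x, a) : W))) hN ?_
    exact Poly.map (l := fun p : List Cl3 × ℕ => List.range (2 * p.1.length + 2))
      (F := fun p a => ((0, p.2, a) : W)) (hM.comp (Poly.fst Poly.id)) (by fun_prop)
  · refine Poly.flatMap (F := fun (φ : List Cl3) x => (List.range (2 * φ.length + 2)).map
      (fun a => ((1, x, a) : W))) hN ?_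
    exact Poly.map (l := fun p : List Cl3 × ℕ => List.range (2 * p.1.length + 2))
      (F := fun p a => ((1, p.2, a) : W)) (hM.comp (Poly.fst Poly.id)) (by fun_prop)
  · exact Poly.map (F := fun _ a => ((2, a, 0) : W)) hm (by fun_prop)
  · exact Poly.map (F := fun _ a => ((3, a, 0) : W)) hm (by fun_prop)
  · refine Poly.flatMap (F := fun (φ : List Cl3) x => (List.range 3).map
      (fun a => ((4, x, a) : W))) hm ?_
    exact Poly.map (l := fun p : List Cl3 × ℕ => List.range 3)
      (F := fun p a => ((4, p.2, a) : W)) h3 (by fun_prop)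

theorem p_redM : Poly redM := by
  unfold redM bud
  exact Poly.pair (p_code p_vM (by fun_prop)) (by fun_prop)

/-! ### membership in NP -/

/-- The label of `u v` in a table. -/
def tb (w : List (ℕ × List (ℕ × ℕ))) (u v : ℕ) : ℕ := lk (lk w [] u) 0 v

@[fun_prop]
theorem p_tb {w : α → List (ℕ × List (ℕ × ℕ))} {u v : α → ℕ} (hw : Poly w) (hu : Poly u)
    (hv : Poly v) : Poly (fun a => tb (w a) (u a) (v a)) := by
  unfold tb
  fun_prop

/-- The certificate test. -/
def testM (y : ((List ℕ × List (ℕ × ℕ)) × ℕ) × List (ℕ × List (ℕ × ℕ))) : Bool :=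
  (y.1.1.1.all (fun u => y.1.1.1.all (fun v => decide (tb y.2 u v = tb y.2 v u)))) &&
  (y.1.1.1.all (fun u => y.1.1.1.all (fun v => decide ((!decide (tb y.2 u v = 0)) =
    adj y.1.1.2 u v)))) &&
  (y.1.1.1.all (fun u => y.1.1.1.all (fun v => !adj y.1.1.2 u v ||
    !decide (((dd y.1.1.1).map (fun z => tb y.2 u z)).sum =
      ((dd y.1.1.1).map (fun z => tb y.2 v z)).sum)))) &&
  decide (((dd y.1.1.1).map (fun u => ((dd y.1.1.1).map (fun z => tb y.2 u z)).sum)).sum ≤
    2 * y.1.2)

theorem p_testM : Poly testM := by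
  unfold testM
  fun_prop

theorem testM_iff (x : List ℕ × List (ℕ × ℕ)) (k : ℕ) (w : List (ℕ × List (ℕ × ℕ))) :
    testM ((x, k), w) = true ↔
      LabOn x.1.toFinset (fun u v => adj x.2 u v = true) (tb w) ∧
      ∑ u ∈ x.1.toFinset, ∑ z ∈ x.1.toFinset, tb w u z ≤ 2 * k := by
  unfold testM
  simp only [Bool.and_eq_true, List.all_eq_true, Bool.or_eq_true,
    Bool.not_eq_true', decide_eq_true_eq, decide_eq_false_iff_not, sum_dd]
  constructor
  · rintro ⟨⟨⟨h1, h2⟩, h3⟩, h4⟩
    refine ⟨⟨fun u hu v hv => h1 u (List.mem_toFinset.1 hu) v (List.mem_toFinset.1 hv),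
      fun u hu v hv => ?_, fun u hu v hv ha => ?_⟩, h4⟩
    · rw [← h2 u (List.mem_toFinset.1 hu) v (List.mem_toFinset.1 hv)]
      simp
    · rcases h3 u (List.mem_toFinset.1 hu) v (List.mem_toFinset.1 hv) with h | h
      · rw [ha] at h; cases h
      · exact h
  · rintro ⟨⟨h1, h2, h3⟩, h4⟩
    refine ⟨⟨⟨fun u hu v hv => h1 u (List.mem_toFinset.2 hu) v (List.mem_toFinset.2 hv),
      fun u hu v hv => ?_⟩, fun u hu v hv => ?_⟩, h4⟩
    · rw [Bool.eq_iff_iff, ← h2 u (List.mem_toFinset.2 hu) v (List.mem_toFinset.2 hv)]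
      simp
    · by_cases ha : adj x.2 u v = true
      · exact Or.inr (h3 u (List.mem_toFinset.2 hu) v (List.mem_toFinset.2 hv) ha)
      · exact Or.inl (by simpa using ha)

theorem inNPP_mE : InNPP (fun x : (List ℕ × List (ℕ × ℕ)) × ℕ => mE (cG x.1) ≤ (x.2 : ℕ∞)) := by
  obtain ⟨p, hp⟩ := (show Poly (fun x : (List ℕ × List (ℕ × ℕ)) × ℕ => 2 * x.2) by
    fun_prop).sz_le
  refine Med.of_cert (β := List (ℕ × List (ℕ × ℕ))) p_testM
    (Polynomial.X * (Polynomial.X + (Polynomial.X * (Polynomial.X + 2 * p + 5) + 1) + 5) + 1) ?_ ?_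
  · rintro ⟨x, k⟩ w hw
    rw [testM_iff] at hw
    rw [mE_cG_iff]
    exact ⟨tb w, hw⟩
  · rintro ⟨x, k⟩ h
    rw [mE_cG_iff] at h
    obtain ⟨l, hl, ht⟩ := h
    have hle : ∀ u ∈ x.1.toFinset, ∀ v ∈ x.1.toFinset, l u v ≤ 2 * k := by
      intro u hu v hv
      refine le_trans ?_ ht
      refine le_trans ?_ (Finset.single_le_sum (f := fun u => ∑ w ∈ x.1.toFinset, l u w)
        (fun _ _ => Nat.zero_le _) hu)
      exact Finset.single_le_sum (f := fun w => l u w) (fun _ _ => Nat.zero_le _) hv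
    have e1 := length_lt_sz x.1
    have e4 : sz (x, k) = sz x.1 + sz x.2 + 1 + sz k + 1 := by
      rw [sz_pair, show sz x = sz (x.1, x.2) from rfl, sz_pair]
    have hp' : sz (2 * k) ≤ p.eval (sz (x, k)) := hp (x, k)
    refine ⟨x.1.map (fun u => (u, x.1.map (fun v => (v, l u v)))), ?_, ?_⟩
    · have hin : ∀ u ∈ x.1, sz (x.1.map (fun v => (v, l u v))) ≤
          sz (x, k) * (sz (x, k) + 2 * p.eval (sz (x, k)) + 5) + 1 := by
        intro u hu
        have hs := sz_le_length_mul (x.1.map (fun v => (v, l u v)))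
          (sz (x, k) + 2 * p.eval (sz (x, k)) + 4) (by
          intro e he
          obtain ⟨v, hv, rfl⟩ := List.mem_map.1 he
          have e1 : sz v < sz x.1 := sz_le_of_mem hv
          have e2 : sz (l u v) ≤ 2 * sz (2 * k) :=
            sz_nat_mono_le (hle u (List.mem_toFinset.2 hu) v (List.mem_toFinset.2 hv))
          rw [sz_pair]
          omega)
        refine hs.trans ?_
        rw [List.length_map]
        exact Nat.add_le_add_right (Nat.mul_le_mul (by omega) (by omega)) 1
      have hs := sz_le_length_mul (x.1.map (fun u => (u, x.1.map (fun v => (v, l u v)))))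
        (sz (x, k) + (sz (x, k) * (sz (x, k) + 2 * p.eval (sz (x, k)) + 5) + 1) + 4) (by
        intro e he
        obtain ⟨v, hv, rfl⟩ := List.mem_map.1 he
        have e1 : sz v < sz x.1 := sz_le_of_mem hv
        have e2 := hin v hv
        rw [sz_pair]
        omega)
      refine hs.trans ?_
      rw [List.length_map]
      have e5 : (Polynomial.X * (Polynomial.X + (Polynomial.X * (Polynomial.X + 2 * p + 5) + 1) + 5)
          + 1 : Polynomial ℕ).eval (sz (x, k)) = sz (x, k) * (sz (x, k) + (sz (x, k) *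
          (sz (x, k) + 2 * p.eval (sz (x, k)) + 5) + 1) + 5) + 1 := by simp
      rw [e5]
      exact Nat.add_le_add_right (Nat.mul_le_mul (by omega) (by omega)) 1
    · rw [testM_iff]
      have htb : ∀ u ∈ x.1.toFinset, ∀ v ∈ x.1.toFinset,
          tb (x.1.map (fun u => (u, x.1.map (fun v => (v, l u v))))) u v = l u v := by
        intro u hu v hv
        unfold tb
        rw [lk_map x.1 (fun u => x.1.map (fun v => (v, l u v))) [] (List.mem_toFinset.1 hu),
          lk_map x.1 (fun v => l u v) 0 (List.mem_toFinset.1 hv)]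
      have hsum : ∀ u ∈ x.1.toFinset, ∑ z ∈ x.1.toFinset,
          tb (x.1.map (fun u => (u, x.1.map (fun v => (v, l u v))))) u z =
          ∑ z ∈ x.1.toFinset, l u z := fun u hu => Finset.sum_congr rfl fun z hz => htb u hu z hz
      refine ⟨⟨fun u hu v hv => ?_, fun u hu v hv => ?_, fun u hu v hv ha => ?_⟩, ?_⟩
      · rw [htb u hu v hv, htb v hv u hu]; exact hl.symm u hu v hv
      · rw [htb u hu v hv]; exact hl.supp u hu v hv
      · rw [hsum u hu, hsum v hv]; exact hl.ne u hu v hv ha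
      · rw [Finset.sum_congr rfl hsum]
        exact ht

/-- Testing niceness. -/
def testN (x : List ℕ × List (ℕ × ℕ)) : Bool :=
  x.1.all (fun u => x.1.all (fun v => !adj x.2 u v || x.1.any (fun w =>
    (!decide (w = v) && adj x.2 u w) || (!decide (w = u) && adj x.2 v w))))

theorem p_testN : Poly testN := by
  unfold testN
  fun_prop

theorem testN_iff (x : List ℕ × List (ℕ × ℕ)) : Nice (cG x) ↔ testN x = true := by
  rw [nice_cG_iff]
  unfold testN NiceOn
  simp only [Bool.and_eq_true, List.all_eq_true, List.any_eq_true, Bool.or_eq_true,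
    Bool.not_eq_true', decide_eq_false_iff_not, List.mem_toFinset]
  constructor
  · intro h u hu v hv
    by_cases ha : adj x.2 u v = true
    · exact Or.inr (h u hu v hv ha)
    · exact Or.inl (by simpa using ha)
  · intro h u hu v hv ha
    rcases h u hu v hv with h | h
    · rw [ha] at h; cases h
    · exact h

theorem inNPP_MinSum : InNPP MinSum := by
  have h1 : InNPP (fun x : (List ℕ × List (ℕ × ℕ)) × ℕ => Nice (cG x.1)) :=
    Med.inNPP_of_test (d := fun x => testN x.1) (p_testN.comp (Poly.fst Poly.id))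
      (fun x => testN_iff x.1)
  exact Med.InNPP.and h1 inNPP_mE

/-- **MIN-SUM is NP-complete.** -/
theorem complete : MinSumComplete := by
  refine ⟨inNPP_MinSum, ?_⟩
  intro L hL
  obtain ⟨f, hf, hpr, h⟩ := (hardPr_SAT3b.trans (Pr' := fun y : (List ℕ × List (ℕ × ℕ)) × ℕ =>
    Nice (cG y.1)) (Q := fun y => mE (cG y.1) ≤ (y.2 : ℕ∞)) p_redM
    (fun φ hφ => redM_nice hφ.1 hφ.2.1 hφ.2.2)
    (fun φ hφ => redM_iff hφ.1 hφ.2.1 hφ.2.2)) L hL
  exact ⟨f, PC.toPolyTime hf, hpr, h⟩

end Pool.Agent.NPC.Q224MS
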