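import Pool.Agent.Q224.MS.Red3
import Pool.Agent.Q224.UC.Tree2

/-!
# Trees: the minimum label sum in polynomial time
-/

set_option autoImplicit false

namespace Pool.Agent.NPC.Q224MS

open _root_.Q224.PL _root_.Q224.MS Pool.Agent.NPC.Q224PL
open Pool.Agent.NPC.Q224UC (dd dd_nodup mem_dd dd_toFinset adj_self)

/-- An option for a vertex: its final color, the sum of the labels of the edges to the eliminated
neighbours, cost. -/
abbrev Ent := ℕ × ℕ × ℕ

/-- The numbers up to the third power of the length. -/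
def cu (V : List ℕ) : List ℕ := List.range (V.length * V.length * V.length + 1)

/-- Numbers up to `k`, for `k ≤ N ^ 3`. -/
def nums (V : List ℕ) (k : ℕ) : List ℕ := (cu V).filter (fun c => decide (c ≤ k))

/-- All options. -/
def ents (V : List ℕ) (k : ℕ) : List Ent :=
  (nums V k).flatMap (fun c => (nums V k).flatMap (fun s => (nums V k).map (fun w => (c, s, w))))

/-- Eliminating a leaf with the option `b`, the neighbour having the option `a`. -/
def okE (e a b : Ent) : Bool :=
  decide (e.1 = a.1) && !decide (a.1 = b.1) && decide (b.2.1 < b.1) &&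
  decide (e.2.1 = a.2.1 + (b.1 - b.2.1)) && decide (e.2.2 = a.2.2 + b.2.2 + (b.1 - b.2.1))

/-- The new options of the neighbour. -/
def comb (U A B : List Ent) : List Ent :=
  U.filter (fun e => A.any (fun a => B.any (fun b => okE e a b)))

/-- States: the remaining vertices with their options. -/
abbrev TS := List (ℕ × List Ent)

/-- The leaf which is eliminated. -/
def leaf (E : List (ℕ × ℕ)) (S : TS) : Option (ℕ × List Ent) :=
  (S.filter (fun a => decide ((S.filter (fun b => adj E a.1 b.1)).length = 1))).head?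

/-- Elimination of `v`. -/
def elim (E : List (ℕ × ℕ)) (U : List Ent) (S : TS) (v : ℕ × List Ent) : TS :=
  (S.filter (fun b => !decide (b.1 = v.1))).map
    (fun b => (b.1, if adj E v.1 b.1 = true then comb U b.2 v.2 else b.2))

/-- One step. -/
def lstep (E : List (ℕ × ℕ)) (U : List Ent) (S : TS) : TS :=
  (leaf E S).elim S (fun v => elim E U S v)

/-- The start. -/
def start (V : List ℕ) (k : ℕ) : TS :=
  (dd V).map (fun v => (v, (ents V k).filter (fun e => decide (e.2.1 = 0) && decide (e.2.2 = 0))))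

/-- The end. -/
def fin (x : List ℕ × List (ℕ × ℕ)) (k : ℕ) : TS :=
  x.1.foldl (fun S _ => lstep x.2 (ents x.1 k) S) (start x.1 k)

/-- The test for the label sum `k`. -/
def feas (x : List ℕ × List (ℕ × ℕ)) (k : ℕ) : Bool :=
  (fin x k).all (fun a => a.2.any (fun e => decide (e.1 = e.2.1)))

/-- The computed label sum. -/
def omT (x : List ℕ × List (ℕ × ℕ)) : ℕ :=
  (((cu x.1).filter (fun k => feas x k)).head?).getD 0

/-! ### one elimination -/

/-- The vertices of a state. -/
def keys (S : TS) : Finset ℕ := (S.map Prod.fst).toFinset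

theorem mem_keys {S : TS} {u : ℕ} : u ∈ keys S ↔ ∃ a ∈ S, a.1 = u := by
  simp [keys]

/-- Solutions of a state: the options and the labels. -/
structure Sol (E : List (ℕ × ℕ)) (k : ℕ) (S : TS) (f : ℕ → Ent) (l : ℕ → ℕ → ℕ) : Prop where
  mem : ∀ a ∈ S, f a.1 ∈ a.2
  ne : ∀ a ∈ S, ∀ b ∈ S, adj E a.1 b.1 = true → (f a.1).1 ≠ (f b.1).1
  symm : ∀ a ∈ S, ∀ b ∈ S, l a.1 b.1 = l b.1 a.1
  supp : ∀ a ∈ S, ∀ b ∈ S, (l a.1 b.1 ≠ 0 ↔ adj E a.1 b.1 = true)
  tot : ∀ a ∈ S, (f a.1).1 = (f a.1).2.1 + ∑ u ∈ keys S, l a.1 u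
  wt : 2 * ∑ u ∈ keys S, (f u).2.2 + ∑ u ∈ keys S, ∑ w ∈ keys S, l u w ≤ 2 * k

theorem okE_iff {e a b : Ent} : okE e a b = true ↔ e.1 = a.1 ∧ a.1 ≠ b.1 ∧ b.2.1 < b.1 ∧
    e.2.1 = a.2.1 + (b.1 - b.2.1) ∧ e.2.2 = a.2.2 + b.2.2 + (b.1 - b.2.1) := by
  unfold okE
  simp only [Bool.and_eq_true, decide_eq_true_eq, Bool.not_eq_true', decide_eq_false_iff_not,
    and_assoc, ne_eq]

/-- The state is regular: different vertices, all options in `U`. -/
structure Reg (U : List Ent) (S : TS) : Prop where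
  nodup : (S.map Prod.fst).Nodup
  sub : ∀ a ∈ S, ∀ e ∈ a.2, e ∈ U

theorem Reg.eq {U : List Ent} {S : TS} (h : Reg U S) {a b : ℕ × List Ent} (ha : a ∈ S)
    (hb : b ∈ S) (he : a.1 = b.1) : a = b :=
  List.inj_on_of_nodup_map h.nodup ha hb he

section

variable {E : List (ℕ × ℕ)} {U : List Ent} {S : TS} {v p : ℕ × List Ent} {k : ℕ}

theorem mem_elim {b' : ℕ × List Ent} : b' ∈ elim E U S v ↔ ∃ b ∈ S, b.1 ≠ v.1 ∧
    b' = (b.1, if adj E v.1 b.1 = true then comb U b.2 v.2 else b.2) := by
  unfold elim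
  rw [List.mem_map]
  constructor
  · rintro ⟨b, hb, rfl⟩
    rw [List.mem_filter, Bool.not_eq_true', decide_eq_false_iff_not] at hb
    exact ⟨b, hb.1, hb.2, rfl⟩
  · rintro ⟨b, hb, hne, rfl⟩
    exact ⟨b, List.mem_filter.2 ⟨hb, by simpa using hne⟩, rfl⟩

theorem elim_keys : (elim E U S v).map Prod.fst = (S.map Prod.fst).filter (fun u => !decide (u = v.1)) := by
  unfold elim
  rw [List.map_map, List.filter_map]
  rfl

theorem keys_elim : keys (elim E U S v) = (keys S).erase v.1 := by
  ext u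
  rw [keys, elim_keys, List.mem_toFinset, List.mem_filter, Finset.mem_erase, keys,
    List.mem_toFinset]
  simp only [Bool.not_eq_true', decide_eq_false_iff_not]
  tauto

theorem elim_reg (h : Reg U S) : Reg U (elim E U S v) := by
  constructor
  · rw [elim_keys]; exact h.nodup.filter _
  · intro a ha e he
    obtain ⟨b, hb, hne, rfl⟩ := mem_elim.1 ha
    simp only at he
    split_ifs at he
    · exact (List.mem_filter.1 he).1
    · exact h.sub b hb e he

/-- Eliminating a leaf keeps feasibility. -/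
theorem elim_iff (hU : ∀ e : Ent, e ∈ U ↔ e.1 ≤ k ∧ e.2.1 ≤ k ∧ e.2.2 ≤ k) (h : Reg U S)
    (hv : v ∈ S) (hp : p ∈ S) (hvp : adj E v.1 p.1 = true)
    (huni : ∀ b ∈ S, adj E v.1 b.1 = true → b = p) :
    (∃ f l, Sol E k S f l) ↔ ∃ f l, Sol E k (elim E U S v) f l := by
  classical
  have hpv : p.1 ≠ v.1 := by
    intro e; rw [e, adj_self] at hvp; cases hvp
  have hpk : p.1 ∈ (keys S).erase v.1 := Finset.mem_erase.2 ⟨hpv, mem_keys.2 ⟨p, hp, rfl⟩⟩
  have hvk : v.1 ∈ keys S := mem_keys.2 ⟨v, hv, rfl⟩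
  have hsum : ∀ g : ℕ → ℕ, ∑ u ∈ keys S, g u = g v.1 + ∑ u ∈ (keys S).erase v.1, g u := by
    intro g
    rw [← Finset.add_sum_erase _ _ hvk]
  have hsum' : ∀ g : ℕ → ℕ, ∑ u ∈ (keys S).erase v.1, g u = g p.1 +
      ∑ u ∈ ((keys S).erase v.1).erase p.1, g u := by
    intro g
    rw [← Finset.add_sum_erase _ _ hpk]
  -- consequences of the support condition
  have hrow : ∀ l : ℕ → ℕ → ℕ, (∀ a ∈ S, ∀ b ∈ S, (l a.1 b.1 ≠ 0 ↔ adj E a.1 b.1 = true)) →
      ∑ u ∈ (keys S).erase v.1, l v.1 u = l v.1 p.1 := by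
    intro l hl
    refine Finset.sum_eq_single p.1 ?_ ?_
    · intro u hu hup
      by_contra hc
      obtain ⟨b, hb, rfl⟩ := mem_keys.1 (Finset.mem_erase.1 hu).2
      exact hup (by rw [huni b hb ((hl v hv b hb).1 hc)])
    · intro hc
      exact absurd hpk hc
  have hvv : ∀ l : ℕ → ℕ → ℕ, (∀ a ∈ S, ∀ b ∈ S, (l a.1 b.1 ≠ 0 ↔ adj E a.1 b.1 = true)) →
      l v.1 v.1 = 0 := by
    intro l hl
    by_contra hc
    have := (hl v hv v hv).1 hc
    rw [adj_self] at this
    cases this
  have hcolv : ∀ l : ℕ → ℕ → ℕ, (∀ a ∈ S, ∀ b ∈ S, (l a.1 b.1 ≠ 0 ↔ adj E a.1 b.1 = true)) →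
      ∀ u ∈ (keys S).erase v.1, u ≠ p.1 → l u v.1 = 0 := by
    intro l hl u hu hup
    by_contra hc
    obtain ⟨b, hb, rfl⟩ := mem_keys.1 (Finset.mem_erase.1 hu).2
    have := (hl b hb v hv).1 hc
    rw [adj_comm] at this
    exact hup (by rw [huni b hb this])
  have hdbl : ∀ l : ℕ → ℕ → ℕ, (∀ a ∈ S, ∀ b ∈ S, (l a.1 b.1 ≠ 0 ↔ adj E a.1 b.1 = true)) →
      l p.1 v.1 = l v.1 p.1 →
      ∑ u ∈ keys S, ∑ w ∈ keys S, l u w = 2 * l v.1 p.1 +
        ∑ u ∈ (keys S).erase v.1, ∑ w ∈ (keys S).erase v.1, l u w := by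
    intro l hl hs
    rw [hsum (fun u => ∑ w ∈ keys S, l u w), hsum (fun w => l v.1 w), hvv l hl, hrow l hl]
    have h1 : ∑ u ∈ (keys S).erase v.1, ∑ w ∈ keys S, l u w = l v.1 p.1 +
        ∑ u ∈ (keys S).erase v.1, ∑ w ∈ (keys S).erase v.1, l u w := by
      rw [Finset.sum_congr rfl fun u _ => hsum (fun w => l u w), Finset.sum_add_distrib]
      congr 1
      rw [← hs]
      refine Finset.sum_eq_single p.1 ?_ ?_
      · intro u hu hup
        exact hcolv l hl u hu hup
      · intro hc
        exact absurd hpk hc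
    rw [h1]
    ring
  constructor
  · rintro ⟨f, l, hf⟩
    have hokcol : (f p.1).1 ≠ (f v.1).1 := (hf.ne v hv p hp hvp).symm
    have hlp : l v.1 p.1 ≠ 0 := (hf.supp v hv p hp).2 hvp
    have htv := hf.tot v hv
    rw [hsum (fun u => l v.1 u), hvv l hf.supp, hrow l hf.supp] at htv
    have hsy := hf.symm p hp v hv
    have htp := hf.tot p hp
    rw [hsum (fun u => l p.1 u)] at htp
    have hwt := hf.wt
    rw [hdbl l hf.supp hsy, hsum (fun u => (f u).2.2), hsum' (fun u => (f u).2.2)] at hwt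
    set e : Ent := ((f p.1).1, (f p.1).2.1 + l v.1 p.1,
      (f p.1).2.2 + (f v.1).2.2 + l v.1 p.1) with he
    have hcol : ∀ u, (Function.update f p.1 e u).1 = (f u).1 := by
      intro u
      by_cases hu : u = p.1
      · subst hu; rw [Function.update_self]
      · rw [Function.update_of_ne hu]
    have hpk1 := (hU _).1 (h.sub p hp _ (hf.mem p hp))
    have hcomb : e ∈ comb U p.2 v.2 := by
      refine List.mem_filter.2 ⟨(hU e).2 ⟨?_, ?_, ?_⟩, ?_⟩
      · exact hpk1.1
      · simp only [he]; omega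
      · simp only [he]; omega
      · rw [List.any_eq_true]
        refine ⟨f p.1, hf.mem p hp, ?_⟩
        rw [List.any_eq_true]
        refine ⟨f v.1, hf.mem v hv, ?_⟩
        rw [okE_iff]
        refine ⟨rfl, hokcol, by omega, ?_, ?_⟩
        · simp only [he]; omega
        · simp only [he]; omega
    refine ⟨Function.update f p.1 e, l, ?_, ?_, ?_, ?_, ?_, ?_⟩
    · intro a ha
      obtain ⟨b, hb, hne, rfl⟩ := mem_elim.1 ha
      by_cases hbp : b = p
      · subst hbp
        simp only [Function.update_self]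
        rw [if_pos hvp]
        exact hcomb
      · have hb1 : b.1 ≠ p.1 := fun e' => hbp (h.eq hb hp e')
        simp only [Function.update_of_ne hb1]
        rw [if_neg (fun h' => hbp (huni b hb h'))]
        exact hf.mem b hb
    · intro a' ha' b' hb' hab
      obtain ⟨a, ha, hne, rfl⟩ := mem_elim.1 ha'
      obtain ⟨b, hb, hne', rfl⟩ := mem_elim.1 hb'
      simp only at hab ⊢
      rw [hcol, hcol]
      exact hf.ne a ha b hb hab
    · intro a' ha' b' hb'
      obtain ⟨a, ha, hne, rfl⟩ := mem_elim.1 ha'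
      obtain ⟨b, hb, hne', rfl⟩ := mem_elim.1 hb'
      exact hf.symm a ha b hb
    · intro a' ha' b' hb'
      obtain ⟨a, ha, hne, rfl⟩ := mem_elim.1 ha'
      obtain ⟨b, hb, hne', rfl⟩ := mem_elim.1 hb'
      exact hf.supp a ha b hb
    · intro a' ha'
      obtain ⟨a, ha, hne, rfl⟩ := mem_elim.1 ha'
      simp only
      rw [keys_elim]
      have hta := hf.tot a ha
      rw [hsum (fun u => l a.1 u)] at hta
      by_cases hap : a.1 = p.1
      · rw [hap, Function.update_self]
        simp only [he]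
        omega
      · rw [Function.update_of_ne hap, hta,
          hcolv l hf.supp a.1 (Finset.mem_erase.2 ⟨hne, mem_keys.2 ⟨a, ha, rfl⟩⟩) hap]
        omega
    · rw [keys_elim, hsum' (fun u => (Function.update f p.1 e u).2.2)]
      have h1 : (Function.update f p.1 e p.1).2.2 = (f p.1).2.2 + (f v.1).2.2 + l v.1 p.1 := by
        rw [Function.update_self]
      have h2 : ∑ u ∈ ((keys S).erase v.1).erase p.1, (Function.update f p.1 e u).2.2 =
          ∑ u ∈ ((keys S).erase v.1).erase p.1, (f u).2.2 := by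
        refine Finset.sum_congr rfl fun u hu => ?_
        rw [Function.update_of_ne (Finset.mem_erase.1 hu).1]
      rw [h1, h2]
      omega
  · rintro ⟨f, l, hf⟩
    have hpe : (p.1, if adj E v.1 p.1 = true then comb U p.2 v.2 else p.2) ∈ elim E U S v :=
      mem_elim.2 ⟨p, hp, hpv, rfl⟩
    have h1 := hf.mem _ hpe
    simp only at h1
    rw [if_pos hvp] at h1
    obtain ⟨_, h1⟩ := List.mem_filter.1 h1
    rw [List.any_eq_true] at h1
    obtain ⟨a, ha, h1⟩ := h1
    rw [List.any_eq_true] at h1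
    obtain ⟨b, hb, h1⟩ := h1
    rw [okE_iff] at h1
    obtain ⟨o1, o2, o3, o4, o5⟩ := h1
    set g := Function.update (Function.update f p.1 a) v.1 b with hg
    have gv : g v.1 = b := by rw [hg, Function.update_self]
    have gp : g p.1 = a := by rw [hg, Function.update_of_ne hpv, Function.update_self]
    have go : ∀ u, u ≠ v.1 → u ≠ p.1 → g u = f u := fun u h1 h2 => by
      rw [hg, Function.update_of_ne h1, Function.update_of_ne h2]
    have gcol : ∀ u, u ≠ v.1 → (g u).1 = (f u).1 := by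
      intro u hu
      by_cases hup : u = p.1
      · rw [hup, gp, ← o1]
      · rw [go u hu hup]
    let m : ℕ → ℕ → ℕ := fun u w => if u = v.1 then (if w = p.1 then b.1 - b.2.1 else 0) else
      if w = v.1 then (if u = p.1 then b.1 - b.2.1 else 0) else l u w
    have mv : ∀ w, m v.1 w = if w = p.1 then b.1 - b.2.1 else 0 := fun w => by
      simp only [m, if_true]
    have mv' : ∀ u, u ≠ v.1 → m u v.1 = if u = p.1 then b.1 - b.2.1 else 0 := fun u hu => by
      simp only [m, if_neg hu, if_true]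
    have mo : ∀ u w, u ≠ v.1 → w ≠ v.1 → m u w = l u w := fun u w hu hw => by
      simp only [m, if_neg hu, if_neg hw]
    have hel : ∀ c ∈ S, c.1 ≠ v.1 →
        (c.1, if adj E v.1 c.1 = true then comb U c.2 v.2 else c.2) ∈ elim E U S v :=
      fun c hc hne => mem_elim.2 ⟨c, hc, hne, rfl⟩
    have hsy : ∀ c ∈ S, ∀ d ∈ S, m c.1 d.1 = m d.1 c.1 := by
      intro c hc d hd
      by_cases h2 : c.1 = v.1
      · rw [h2, mv]
        by_cases h3 : d.1 = v.1
        · rw [h3, mv, if_neg (Ne.symm hpv)]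
        · rw [mv' _ h3]
      · by_cases h3 : d.1 = v.1
        · rw [h3, mv, mv' _ h2]
        · rw [mo _ _ h2 h3, mo _ _ h3 h2]
          have m3 := hf.symm _ (hel c hc h2) _ (hel d hd h3)
          exact m3
    have hsupp : ∀ c ∈ S, ∀ d ∈ S, (m c.1 d.1 ≠ 0 ↔ adj E c.1 d.1 = true) := by
      have hkey : ∀ d ∈ S, ((if d.1 = p.1 then b.1 - b.2.1 else 0) ≠ 0 ↔
          adj E v.1 d.1 = true) := by
        intro d hd
        by_cases h4 : d.1 = p.1
        · rw [if_pos h4, h4]
          exact ⟨fun _ => hvp, fun _ => by omega⟩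
        · rw [if_neg h4]
          exact ⟨fun h5 => absurd rfl h5, fun h5 => absurd (by rw [huni d hd h5]) h4⟩
      intro c hc d hd
      by_cases h2 : c.1 = v.1
      · rw [h2, mv]
        exact hkey d hd
      · by_cases h3 : d.1 = v.1
        · rw [h3, mv' _ h2, adj_comm]
          exact hkey c hc
        · rw [mo _ _ h2 h3]
          have m3 := hf.supp _ (hel c hc h2) _ (hel d hd h3)
          exact m3
    refine ⟨g, m, ?_, ?_, hsy, hsupp, ?_, ?_⟩
    · intro c hc
      by_cases h2 : c = v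
      · rw [h2, gv]; exact hb
      · by_cases h3 : c = p
        · rw [h3, gp]; exact ha
        · have h2' : c.1 ≠ v.1 := fun e => h2 (h.eq hc hv e)
          have h3' : c.1 ≠ p.1 := fun e => h3 (h.eq hc hp e)
          rw [go _ h2' h3']
          have := hf.mem _ (mem_elim.2 ⟨c, hc, h2', rfl⟩)
          simp only at this
          rwa [if_neg (fun h' => h3 (huni c hc h'))] at this
    · intro c hc d hd hcd
      by_cases h2 : c = v
      · have h3 : d = p := huni d hd (by rw [← h2]; exact hcd)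
        rw [h2, h3, gv, gp]; exact o2.symm
      · by_cases h3 : d = v
        · have h4 : c = p := huni c hc (by rw [adj_comm, ← h3]; exact hcd)
          rw [h3, h4, gv, gp]; exact o2
        · have h2' : c.1 ≠ v.1 := fun e => h2 (h.eq hc hv e)
          have h3' : d.1 ≠ v.1 := fun e => h3 (h.eq hd hv e)
          rw [gcol _ h2', gcol _ h3']
          have m3 := hf.ne _ (hel c hc h2') _ (hel d hd h3')
          exact m3 hcd
    · intro c hc
      rw [hsum (fun u => m c.1 u)]
      by_cases h2 : c.1 = v.1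
      · rw [h2, hvv m hsupp, hrow m hsupp, gv, mv, if_pos rfl]
        omega
      · have h3 : ∑ u ∈ (keys S).erase v.1, m c.1 u = ∑ u ∈ (keys S).erase v.1, l c.1 u :=
          Finset.sum_congr rfl fun u hu => mo _ _ h2 (Finset.mem_erase.1 hu).1
        have h4 := hf.tot _ (hel c hc h2)
        simp only at h4
        rw [keys_elim] at h4
        rw [h3, gcol _ h2, h4, mv' _ h2]
        by_cases h5 : c.1 = p.1
        · rw [if_pos h5, h5, gp, o4]
          omega
        · rw [if_neg h5, go _ h2 h5]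
          omega
    · have hwt := hf.wt
      rw [keys_elim, hsum' (fun u => (f u).2.2)] at hwt
      rw [hdbl m hsupp (hsy p hp v hv), hsum (fun u => (g u).2.2), hsum' (fun u => (g u).2.2),
        gv, gp, mv, if_pos rfl]
      have h2 : ∑ u ∈ ((keys S).erase v.1).erase p.1, (g u).2.2 =
          ∑ u ∈ ((keys S).erase v.1).erase p.1, (f u).2.2 := by
        refine Finset.sum_congr rfl fun u hu => ?_
        rw [Finset.mem_erase, Finset.mem_erase] at hu
        rw [go u hu.2.1 hu.1]
      have h3 : ∑ u ∈ (keys S).erase v.1, ∑ w ∈ (keys S).erase v.1, m u w =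
          ∑ u ∈ (keys S).erase v.1, ∑ w ∈ (keys S).erase v.1, l u w :=
        Finset.sum_congr rfl fun u hu => Finset.sum_congr rfl fun w hw =>
          mo _ _ (Finset.mem_erase.1 hu).1 (Finset.mem_erase.1 hw).1
      rw [h2, h3]
      omega

end

/-! ### leaves -/

section

variable {E : List (ℕ × ℕ)} {U : List Ent} {S : TS} {k : ℕ}

theorem leaf_spec {v : ℕ × List Ent} (h : leaf E S = some v) :
    v ∈ S ∧ ∃ p ∈ S, adj E v.1 p.1 = true ∧ ∀ b ∈ S, adj E v.1 b.1 = true → b = p := by
  have h1 := List.mem_of_mem_head? h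
  rw [List.mem_filter, decide_eq_true_eq, List.length_eq_one_iff] at h1
  obtain ⟨hv, p, hp⟩ := h1
  have hp1 : p ∈ S.filter (fun b => adj E v.1 b.1) := by rw [hp]; exact List.mem_singleton_self _
  rw [List.mem_filter] at hp1
  refine ⟨hv, p, hp1.1, hp1.2, fun b hb hadj => ?_⟩
  have : b ∈ S.filter (fun b => adj E v.1 b.1) := List.mem_filter.2 ⟨hb, hadj⟩
  rw [hp, List.mem_singleton] at this
  exact this

theorem leaf_ne_none (h : Reg U S) {v p : ℕ × List Ent} (hv : v ∈ S) (hp : p ∈ S)
    (hvp : adj E v.1 p.1 = true) (huni : ∀ b ∈ S, adj E v.1 b.1 = true → b = p) :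
    leaf E S ≠ none := by
  intro hn
  unfold leaf at hn
  rw [List.head?_eq_none_iff, List.filter_eq_nil_iff] at hn
  apply hn v hv
  rw [decide_eq_true_eq]
  have hnd : (S.filter (fun b => adj E v.1 b.1)).Nodup := (h.nodup.of_map _).filter _
  have hall : ∀ b ∈ S.filter (fun b => adj E v.1 b.1), b = p := by
    intro b hb
    rw [List.mem_filter] at hb
    exact huni b hb.1 hb.2
  have hmem : p ∈ S.filter (fun b => adj E v.1 b.1) := List.mem_filter.2 ⟨hp, hvp⟩
  have h1 : 0 < (S.filter (fun b => adj E v.1 b.1)).length := List.length_pos_of_mem hmem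
  have h2 : (S.filter (fun b => adj E v.1 b.1)).length ≤ 1 := by
    by_contra hc
    have e0 := hall _ (List.getElem_mem (l := S.filter (fun b => adj E v.1 b.1)) (n := 0)
      (by omega))
    have e1 := hall _ (List.getElem_mem (l := S.filter (fun b => adj E v.1 b.1)) (n := 1)
      (by omega))
    have := (hnd.getElem_inj_iff (i := 0) (j := 1) (hi := by omega) (hj := by omega)).1
      (by rw [e0, e1])
    omega
  omega

theorem lstep_reg (h : Reg U S) : Reg U (lstep E U S) := by
  unfold lstep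
  rcases hl : leaf E S with _ | v
  · exact h
  · exact elim_reg h

theorem lstep_iff (hU : ∀ e : Ent, e ∈ U ↔ e.1 ≤ k ∧ e.2.1 ≤ k ∧ e.2.2 ≤ k) (h : Reg U S) :
    (∃ f l, Sol E k S f l) ↔ ∃ f l, Sol E k (lstep E U S) f l := by
  unfold lstep
  rcases hl : leaf E S with _ | v
  · exact Iff.rfl
  · obtain ⟨hv, p, hp, hvp, huni⟩ := leaf_spec hl
    exact elim_iff hU h hv hp hvp huni

/-- The remaining graph. -/
def gS (E : List (ℕ × ℕ)) (S : TS) : SimpleGraph {v : ℕ // v ∈ S.map Prod.fst} :=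
  cG (S.map Prod.fst, E)

theorem tree_step (h : Reg U S) (ht : (gS E S).IsTree) :
    (gS E (lstep E U S)).IsTree ∧ (lstep E U S).length = max 1 (S.length - 1) := by
  classical
  have : Fintype {v : ℕ // v ∈ S.map Prod.fst} :=
    Fintype.subtype (S.map Prod.fst).toFinset (by simp)
  have hcard : Fintype.card {v : ℕ // v ∈ S.map Prod.fst} = S.length := by
    rw [Fintype.card_of_subtype (S.map Prod.fst).toFinset (by simp),
      List.toFinset_card_of_nodup h.nodup, List.length_map]
  have hne : Nonempty {v : ℕ // v ∈ S.map Prod.fst} := ht.connected.nonempty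
  have hpos : 0 < S.length := by rw [← hcard]; exact Fintype.card_pos
  have hdeg : ∀ v ∈ S, ∀ hv : v.1 ∈ S.map Prod.fst, (gS E S).degree ⟨v.1, hv⟩ = 1 ↔
      ∃ p ∈ S, adj E v.1 p.1 = true ∧ ∀ b ∈ S, adj E v.1 b.1 = true → b = p := by
    intro v hvS hv
    rw [SimpleGraph.degree_eq_one_iff_existsUnique_adj]
    constructor
    · rintro ⟨⟨w, hw⟩, h1, h2⟩
      obtain ⟨p, hp, hpw⟩ := List.mem_map.1 hw
      refine ⟨p, hp, ?_, fun b hb hadj => ?_⟩
      · have := (cG_adj _ _ _).1 h1
        simp only at this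
        rw [hpw]; exact this
      · have := h2 ⟨b.1, List.mem_map.2 ⟨b, hb, rfl⟩⟩ ((cG_adj _ _ _).2 hadj)
        exact h.eq hb hp (by rw [hpw]; exact congrArg Subtype.val this)
    · rintro ⟨p, hp, h1, h2⟩
      refine ⟨⟨p.1, List.mem_map.2 ⟨p, hp, rfl⟩⟩, (cG_adj _ _ _).2 h1, ?_⟩
      rintro ⟨w, hw⟩ h3
      obtain ⟨b, hb, rfl⟩ := List.mem_map.1 hw
      have := h2 b hb ((cG_adj _ _ _).1 h3)
      subst this
      rfl
  rcases Nat.lt_or_ge 1 S.length with h1 | h1
  · have hnt : Nontrivial {v : ℕ // v ∈ S.map Prod.fst} := by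
      rw [← Fintype.one_lt_card_iff_nontrivial, hcard]; exact h1
    obtain ⟨⟨v0, hv0⟩, hd0⟩ := ht.exists_vert_degree_one_of_nontrivial
    obtain ⟨a0, ha0, rfl⟩ := List.mem_map.1 hv0
    obtain ⟨p0, hp0, hap0, huni0⟩ := (hdeg a0 ha0 hv0).1 (by convert hd0)
    unfold lstep
    rcases hl : leaf E S with _ | v
    · exact absurd hl (leaf_ne_none h ha0 hp0 hap0 huni0)
    · simp only [Option.elim]
      obtain ⟨hv, p, hp, hvp, huni⟩ := leaf_spec hl
      have hvm : v.1 ∈ S.map Prod.fst := List.mem_map.2 ⟨v, hv, rfl⟩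
      have hd : (gS E S).degree ⟨v.1, hvm⟩ = 1 := (hdeg v hv hvm).2 ⟨p, hp, hvp, huni⟩
      have hconn := ht.connected.induce_compl_singleton_of_degree_eq_one hd
      have hacyc := ht.isAcyclic.induce ({⟨v.1, hvm⟩}ᶜ : Set {v : ℕ // v ∈ S.map Prod.fst})
      have hmem : ∀ u, u ∈ (elim E U S v).map Prod.fst ↔ u ∈ S.map Prod.fst ∧ u ≠ v.1 := by
        intro u
        rw [elim_keys, List.mem_filter]
        simp
      let e : {u : ℕ // u ∈ (elim E U S v).map Prod.fst} ≃
          ({⟨v.1, hvm⟩}ᶜ : Set {v : ℕ // v ∈ S.map Prod.fst}) :=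
        { toFun := fun u => ⟨⟨u.1, ((hmem u.1).1 u.2).1⟩, fun h' =>
            ((hmem u.1).1 u.2).2 (congrArg Subtype.val (Set.mem_singleton_iff.1 h'))⟩
          invFun := fun u => ⟨u.1.1, (hmem _).2 ⟨u.1.2, fun h' => u.2 (by
            rw [Set.mem_singleton_iff]; exact Subtype.ext h')⟩⟩
          left_inv := fun u => rfl
          right_inv := fun u => rfl }
      have iso : gS E (elim E U S v) ≃g
          (gS E S).induce ({⟨v.1, hvm⟩}ᶜ : Set {v : ℕ // v ∈ S.map Prod.fst}) :=
        { e with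
          map_rel_iff' := by
            intro a b
            simp only [SimpleGraph.comap_adj, gS, cG_adj]
            exact Iff.rfl }
      refine ⟨⟨iso.connected_iff.2 hconn, hacyc.embedding iso.toEmbedding⟩, ?_⟩
      have hlen : (elim E U S v).length = ((keys S).erase v.1).card := by
        rw [← keys_elim, keys, List.toFinset_card_of_nodup (elim_reg h).nodup, List.length_map]
      have hlen2 : (keys S).card = S.length := by
        rw [keys, List.toFinset_card_of_nodup h.nodup, List.length_map]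
      rw [hlen, Finset.card_erase_of_mem (mem_keys.2 ⟨v, hv, rfl⟩), hlen2]
      omega
  · have hl : leaf E S = none := by
      by_contra hc
      obtain ⟨v, hl⟩ := Option.ne_none_iff_exists'.1 hc
      obtain ⟨hv, p, hp, hvp, _⟩ := leaf_spec hl
      obtain ⟨a, ha⟩ := List.length_eq_one_iff.1 (by omega : S.length = 1)
      rw [ha, List.mem_singleton] at hv hp
      rw [hv, hp, adj_self] at hvp
      cases hvp
    unfold lstep
    rw [hl]
    exact ⟨ht, by simp only [Option.elim]; omega⟩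

end

end Pool.Agent.NPC.Q224MS
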