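import Pool.Agent.Q224.MS.Tree
import Pool.Agent.Q224.MS.Exist

/-!
# Trees: correctness and running time of the algorithm
-/

set_option autoImplicit false

namespace Pool.Agent.NPC.Q224MS

open _root_.Q224.PL _root_.Q224.MS Pool.Agent.NPC.Q224PL
open Pool.Agent.NPC.Q224UC (dd dd_nodup mem_dd dd_toFinset adj_self p_dd)

/-! ### correctness -/

theorem mem_cu {V : List ℕ} {c : ℕ} : c ∈ cu V ↔ c ≤ V.length * V.length * V.length := by
  unfold cu
  rw [List.mem_range]
  omega

theorem mem_nums {V : List ℕ} {k : ℕ} (hk : k ≤ V.length * V.length * V.length) {c : ℕ} :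
    c ∈ nums V k ↔ c ≤ k := by
  unfold nums
  rw [List.mem_filter, mem_cu, decide_eq_true_eq]
  omega

theorem mem_ents {V : List ℕ} {k : ℕ} (hk : k ≤ V.length * V.length * V.length) (e : Ent) :
    e ∈ ents V k ↔ e.1 ≤ k ∧ e.2.1 ≤ k ∧ e.2.2 ≤ k := by
  obtain ⟨c, s, w⟩ := e
  unfold ents
  simp only [List.mem_flatMap, mem_nums hk, List.mem_map, Prod.mk.injEq]
  constructor
  · rintro ⟨c', hc, s', hs, w', hw, rfl, rfl, rfl⟩
    exact ⟨hc, hs, hw⟩
  · rintro ⟨hc, hs, hw⟩
    exact ⟨c, hc, s, hs, w, hw, rfl, rfl, rfl⟩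

theorem start_fst (V : List ℕ) (k : ℕ) : (start V k).map Prod.fst = dd V := by
  unfold start
  rw [List.map_map]
  exact List.map_id _

theorem start_reg (V : List ℕ) (k : ℕ) : Reg (ents V k) (start V k) := by
  constructor
  · rw [start_fst]; exact dd_nodup V
  · intro a ha e he
    obtain ⟨v, _, rfl⟩ := List.mem_map.1 ha
    exact (List.mem_filter.1 he).1

theorem start_keys (V : List ℕ) (k : ℕ) : keys (start V k) = V.toFinset := by
  unfold keys
  rw [start_fst, dd_toFinset]

theorem mem_start {V : List ℕ} {k : ℕ} {a : ℕ × List Ent} (ha : a ∈ start V k) :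
    a.1 ∈ V.toFinset ∧ ∀ e, e ∈ a.2 ↔ e ∈ ents V k ∧ e.2.1 = 0 ∧ e.2.2 = 0 := by
  obtain ⟨v, hv, rfl⟩ := List.mem_map.1 ha
  refine ⟨List.mem_toFinset.2 (mem_dd.1 hv), fun e => ?_⟩
  rw [List.mem_filter, Bool.and_eq_true, decide_eq_true_eq, decide_eq_true_eq]

theorem start_mem {V : List ℕ} {k : ℕ} {v : ℕ} (hv : v ∈ V.toFinset) :
    ∃ a ∈ start V k, a.1 = v := by
  rw [← start_keys V k] at hv
  exact mem_keys.1 hv

theorem start_iff {x : List ℕ × List (ℕ × ℕ)} {k : ℕ}
    (hk : k ≤ x.1.length * x.1.length * x.1.length) :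
    (∃ f l, Sol x.2 k (start x.1 k) f l) ↔
      FeasL x.1.toFinset (fun u v => adj x.2 u v = true) k := by
  constructor
  · rintro ⟨f, l, hf⟩
    have hm : ∀ v ∈ x.1.toFinset, (f v).2.1 = 0 ∧ (f v).2.2 = 0 := by
      intro v hv
      obtain ⟨a, ha, rfl⟩ := start_mem (k := k) hv
      exact (((mem_start ha).2 _).1 (hf.mem a ha)).2
    have hc : ∀ v ∈ x.1.toFinset, ∑ w ∈ x.1.toFinset, l v w = (f v).1 := by
      intro v hv
      have h0 := (hm v hv).1
      obtain ⟨a, ha, rfl⟩ := start_mem (k := k) hv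
      have := hf.tot a ha
      rw [start_keys, h0] at this
      omega
    refine ⟨l, ⟨?_, ?_, ?_⟩, ?_⟩
    · intro u hu v hv
      obtain ⟨a, ha, rfl⟩ := start_mem (k := k) hu
      obtain ⟨b, hb, rfl⟩ := start_mem (k := k) hv
      exact hf.symm a ha b hb
    · intro u hu v hv
      obtain ⟨a, ha, rfl⟩ := start_mem (k := k) hu
      obtain ⟨b, hb, rfl⟩ := start_mem (k := k) hv
      exact hf.supp a ha b hb
    · intro u hu v hv huv
      rw [hc u hu, hc v hv]
      obtain ⟨a, ha, rfl⟩ := start_mem (k := k) hu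
      obtain ⟨b, hb, rfl⟩ := start_mem (k := k) hv
      exact hf.ne a ha b hb huv
    · have := hf.wt
      rw [start_keys] at this
      omega
  · rintro ⟨l, hl, ht⟩
    have hrow : ∀ u ∈ x.1.toFinset, ∑ w ∈ x.1.toFinset, l u w ≤ k := by
      intro u hu
      have hself : l u u = 0 := by
        by_contra hc
        have := (hl.supp u hu u hu).1 hc
        rw [adj_self] at this
        cases this
      have e1 : ∑ w ∈ x.1.toFinset, l u w = ∑ w ∈ x.1.toFinset.erase u, l u w := by
        rw [← Finset.add_sum_erase _ _ hu, hself, zero_add]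
      have e2 : ∑ v ∈ x.1.toFinset, ∑ w ∈ x.1.toFinset, l v w =
          ∑ w ∈ x.1.toFinset, l u w + ∑ v ∈ x.1.toFinset.erase u, ∑ w ∈ x.1.toFinset, l v w := by
        rw [← Finset.add_sum_erase _ _ hu]
      have e3 : ∑ v ∈ x.1.toFinset.erase u, l u v ≤
          ∑ v ∈ x.1.toFinset.erase u, ∑ w ∈ x.1.toFinset, l v w := by
        refine Finset.sum_le_sum fun v hv => ?_
        rw [hl.symm u hu v (Finset.mem_erase.1 hv).2]
        exact Finset.single_le_sum (f := fun w => l v w) (fun _ _ => Nat.zero_le _) hu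
      omega
    refine ⟨fun u => (∑ w ∈ x.1.toFinset, l u w, 0, 0), l, ?_, ?_, ?_, ?_, ?_, ?_⟩
    · intro a ha
      obtain ⟨hv, hm⟩ := mem_start ha
      rw [hm, mem_ents hk]
      exact ⟨⟨hrow _ hv, Nat.zero_le _, Nat.zero_le _⟩, rfl, rfl⟩
    · intro a ha b hb hab
      exact hl.ne _ (mem_start ha).1 _ (mem_start hb).1 hab
    · intro a ha b hb
      exact hl.symm _ (mem_start ha).1 _ (mem_start hb).1
    · intro a ha b hb
      exact hl.supp _ (mem_start ha).1 _ (mem_start hb).1
    · intro a ha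
      rw [start_keys]
      simp
    · rw [start_keys]
      simp only [Finset.sum_const_zero, mul_zero, zero_add]
      exact ht

section

variable {E : List (ℕ × ℕ)} {U : List Ent} {S : TS} {k : ℕ}

theorem iter_reg (h : Reg U S) (m : ℕ) : Reg U ((lstep E U)^[m] S) := by
  induction m with
  | zero => exact h
  | succ m ih => rw [Function.iterate_succ_apply']; exact lstep_reg ih

theorem iter_iff (hU : ∀ e : Ent, e ∈ U ↔ e.1 ≤ k ∧ e.2.1 ≤ k ∧ e.2.2 ≤ k) (h : Reg U S)
    (m : ℕ) : (∃ f l, Sol E k S f l) ↔ ∃ f l, Sol E k ((lstep E U)^[m] S) f l := by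
  induction m with
  | zero => exact Iff.rfl
  | succ m ih => rw [Function.iterate_succ_apply', ih]; exact lstep_iff hU (iter_reg h m)

theorem iter_tree (h : Reg U S) (ht : (gS E S).IsTree) (h1 : 1 ≤ S.length) (m : ℕ) :
    (gS E ((lstep E U)^[m] S)).IsTree ∧ ((lstep E U)^[m] S).length = max 1 (S.length - m) := by
  induction m with
  | zero => exact ⟨ht, by simp only [Function.iterate_zero, _root_.id]; omega⟩
  | succ m ih =>
    rw [Function.iterate_succ_apply']
    obtain ⟨h2, h3⟩ := tree_step (iter_reg h m) ih.1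
    refine ⟨h2, ?_⟩
    rw [h3, ih.2]
    omega

theorem single_iff (hU : ∀ e : Ent, e ∈ U ↔ e.1 ≤ k ∧ e.2.1 ≤ k ∧ e.2.2 ≤ k) (h : Reg U S)
    (h1 : S.length = 1) :
    (∃ f l, Sol E k S f l) ↔ S.all (fun a => a.2.any (fun e => decide (e.1 = e.2.1))) = true := by
  obtain ⟨a, rfl⟩ := List.length_eq_one_iff.1 h1
  simp only [List.all_cons, List.all_nil, Bool.and_true]
  rw [List.any_eq_true]
  have hk : keys [a] = {a.1} := by ext u; simp [keys]
  constructor
  · rintro ⟨f, l, hf⟩
    refine ⟨f a.1, hf.mem a (List.mem_singleton_self a), ?_⟩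
    rw [decide_eq_true_eq]
    have h2 := hf.tot a (List.mem_singleton_self a)
    rw [hk, Finset.sum_singleton] at h2
    have h3 : l a.1 a.1 = 0 := by
      by_contra hc
      have := (hf.supp a (List.mem_singleton_self a) a (List.mem_singleton_self a)).1 hc
      rw [adj_self] at this
      cases this
    omega
  · rintro ⟨e, he, h2⟩
    rw [decide_eq_true_eq] at h2
    refine ⟨fun _ => e, fun _ _ => 0, ?_, ?_, ?_, ?_, ?_, ?_⟩
    · intro b hb
      rw [List.mem_singleton] at hb
      rw [hb]; exact he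
    · intro b hb c hc h3
      rw [List.mem_singleton] at hb hc
      rw [hb, hc, adj_self] at h3
      cases h3
    · intro _ _ _ _
      rfl
    · intro b hb c hc
      rw [List.mem_singleton] at hb hc
      rw [hb, hc, adj_self]
      simp
    · intro b _
      simp [h2]
    · rw [hk, Finset.sum_singleton, Finset.sum_singleton, Finset.sum_singleton]
      have := ((hU e).1 (h.sub a (List.mem_singleton_self a) e he)).2.2
      omega

end

theorem start_tree {x : List ℕ × List (ℕ × ℕ)} {k : ℕ} (ht : (cG x).IsTree) :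
    (gS x.2 (start x.1 k)).IsTree := by
  have hmem : ∀ u, u ∈ (start x.1 k).map Prod.fst ↔ u ∈ x.1 := by
    intro u; rw [start_fst, mem_dd]
  let e : {u : ℕ // u ∈ (start x.1 k).map Prod.fst} ≃ {u : ℕ // u ∈ x.1} :=
    { toFun := fun u => ⟨u.1, (hmem u.1).1 u.2⟩
      invFun := fun u => ⟨u.1, (hmem u.1).2 u.2⟩
      left_inv := fun u => rfl
      right_inv := fun u => rfl }
  have iso : gS x.2 (start x.1 k) ≃g cG x :=
    { e with
      map_rel_iff' := by
        intro a b
        simp only [gS, cG_adj]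
        exact Iff.rfl }
  exact ⟨iso.connected_iff.2 ht.connected, ht.isAcyclic.embedding iso.toEmbedding⟩

theorem feas_iff {x : List ℕ × List (ℕ × ℕ)} {k : ℕ} (ht : (cG x).IsTree)
    (hk : k ≤ x.1.length * x.1.length * x.1.length) :
    feas x k = true ↔ mE (cG x) ≤ (k : ℕ∞) := by
  have hU := mem_ents hk
  have hreg := start_reg x.1 k
  have hlen : (start x.1 k).length = (dd x.1).length := by
    rw [← start_fst x.1 k, List.length_map]
  have hle : (dd x.1).length ≤ x.1.length := by
    rw [← List.toFinset_card_of_nodup (dd_nodup x.1), dd_toFinset]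
    exact List.toFinset_card_le _
  have hpos : 1 ≤ (dd x.1).length := by
    obtain ⟨v⟩ := ht.connected.nonempty
    exact List.length_pos_of_mem (mem_dd.2 v.2)
  have htree := iter_tree (E := x.2) hreg (start_tree ht) (by omega) x.1.length
  have hfin : fin x k = (lstep x.2 (ents x.1 k))^[x.1.length] (start x.1 k) := by
    unfold fin
    exact foldl_iter _ _ _
  rw [mE_cG_iff, ← start_iff hk, iter_iff hU hreg x.1.length, ← hfin]
  unfold feas
  refine (single_iff hU ?_ ?_).symm
  · rw [hfin]; exact iter_reg hreg _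
  · rw [hfin, htree.2]; omega

/-- **The algorithm is correct on nice trees.** -/
theorem omT_eq {x : List ℕ × List (ℕ × ℕ)} (ht : (cG x).IsTree) (hn : Nice (cG x)) :
    mE (cG x) = ((omT x : ℕ) : ℕ∞) := by
  classical
  have : Fintype {v : ℕ // v ∈ x.1} := Fintype.subtype x.1.toFinset (by simp)
  have hcard : Fintype.card {v : ℕ // v ∈ x.1} ≤ x.1.length := by
    rw [Fintype.card_of_subtype x.1.toFinset (by simp)]
    exact List.toFinset_card_le _
  have hle : mE (cG x) ≤ ((x.1.length * x.1.length * x.1.length : ℕ) : ℕ∞) := by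
    refine (mE_tree_le (cG x) ht hn).trans ?_
    exact_mod_cast Nat.mul_le_mul (Nat.mul_le_mul hcard hcard) hcard
  obtain ⟨m, hm⟩ := ENat.ne_top_iff_exists.1 (ne_top_of_le_ne_top (ENat.natCast_ne_top _) hle)
  rw [← hm] at hle ⊢
  have hle' : m ≤ x.1.length * x.1.length * x.1.length := by exact_mod_cast hle
  unfold omT
  rw [List.head?_filter]
  have h : (cu x.1).find? (fun k => feas x k) = some m := by
    unfold cu
    rw [List.find?_range_eq_some]
    refine ⟨(feas_iff ht hle').2 (by rw [← hm]), ?_, ?_⟩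
    · rw [List.mem_range]
      omega
    · intro j hj
      rw [Bool.not_eq_true', Bool.eq_false_iff]
      intro hc
      have h1 := (feas_iff ht (by omega)).1 hc
      rw [← hm] at h1
      have : m ≤ j := by exact_mod_cast h1
      omega
  rw [h]
  rfl

/-! ### running time -/

variable {α : Type} [TEnc α]

@[fun_prop]
theorem p_cu {V : α → List ℕ} (hV : Poly V) : Poly (fun a => cu (V a)) :=
  (UPoly.add (UPoly.mul (UPoly.mul (UPoly.length hV) (UPoly.length hV)) (UPoly.length hV))
    (UPoly.const 1)).range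

@[fun_prop]
theorem p_nums {V : α → List ℕ} {k : α → ℕ} (hV : Poly V) (hk : Poly k) :
    Poly (fun a => nums (V a) (k a)) := by
  unfold nums
  fun_prop

@[fun_prop]
theorem p_ents {V : α → List ℕ} {k : α → ℕ} (hV : Poly V) (hk : Poly k) :
    Poly (fun a => ents (V a) (k a)) := by
  unfold ents
  fun_prop

@[fun_prop]
theorem p_okE {e b c : α → Ent} (he : Poly e) (hb : Poly b) (hc : Poly c) :
    Poly (fun a => okE (e a) (b a) (c a)) := by
  unfold okE
  fun_prop

@[fun_prop]
theorem p_comb {U A B : α → List Ent} (hU : Poly U) (hA : Poly A) (hB : Poly B) :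
    Poly (fun a => comb (U a) (A a) (B a)) := by
  unfold comb
  fun_prop

@[fun_prop]
theorem p_leaf {E : α → List (ℕ × ℕ)} {S : α → TS} (hE : Poly E) (hS : Poly S) :
    Poly (fun a => leaf (E a) (S a)) := by
  unfold leaf
  fun_prop

@[fun_prop]
theorem p_elim {E : α → List (ℕ × ℕ)} {U : α → List Ent} {S : α → TS} {v : α → ℕ × List Ent}
    (hE : Poly E) (hU : Poly U) (hS : Poly S) (hv : Poly v) :
    Poly (fun a => elim (E a) (U a) (S a) (v a)) := by
  unfold elim
  fun_prop

@[fun_prop]
theorem p_lstep {E : α → List (ℕ × ℕ)} {U : α → List Ent} {S : α → TS}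
    (hE : Poly E) (hU : Poly U) (hS : Poly S) : Poly (fun a => lstep (E a) (U a) (S a)) := by
  unfold lstep
  exact Poly.optElim (h := fun a v => elim (E a) (U a) (S a) v) (by fun_prop) hS (by fun_prop)

@[fun_prop]
theorem p_start {V : α → List ℕ} {k : α → ℕ} (hV : Poly V) (hk : Poly k) :
    Poly (fun a => start (V a) (k a)) := by
  unfold start
  fun_prop

theorem bd_step {E : List (ℕ × ℕ)} {U : List Ent} {V : List ℕ} {S : TS}
    (h : S.length ≤ V.length ∧ ∀ a ∈ S, a.1 ∈ V ∧ sz a.2 ≤ sz U) :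
    (lstep E U S).length ≤ V.length ∧ ∀ a ∈ lstep E U S, a.1 ∈ V ∧ sz a.2 ≤ sz U := by
  unfold lstep
  rcases hl : leaf E S with _ | v
  · exact h
  · simp only [Option.elim]
    constructor
    · unfold elim
      rw [List.length_map]
      exact (List.length_filter_le _ _).trans h.1
    · intro a ha
      obtain ⟨b, hb, _, rfl⟩ := mem_elim.1 ha
      refine ⟨(h.2 b hb).1, ?_⟩
      dsimp only
      split_ifs
      · exact sz_filter_le _ _
      · exact (h.2 b hb).2

theorem bd_iter {E : List (ℕ × ℕ)} {U : List Ent} {V : List ℕ} {S : TS}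
    (h : S.length ≤ V.length ∧ ∀ a ∈ S, a.1 ∈ V ∧ sz a.2 ≤ sz U) (m : ℕ) :
    ((lstep E U)^[m] S).length ≤ V.length ∧
      ∀ a ∈ (lstep E U)^[m] S, a.1 ∈ V ∧ sz a.2 ≤ sz U := by
  induction m with
  | zero => exact h
  | succ m ih => rw [Function.iterate_succ_apply']; exact bd_step ih

theorem bd_start (V : List ℕ) (k : ℕ) : (start V k).length ≤ V.length ∧
    ∀ a ∈ start V k, a.1 ∈ V ∧ sz a.2 ≤ sz (ents V k) := by
  constructor
  · rw [← List.length_map (f := Prod.fst), start_fst,
      ← List.toFinset_card_of_nodup (dd_nodup V), dd_toFinset]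
    exact List.toFinset_card_le _
  · intro a ha
    obtain ⟨v, hv, rfl⟩ := List.mem_map.1 ha
    exact ⟨mem_dd.1 hv, sz_filter_le _ _⟩

@[fun_prop]
theorem p_fin {x : α → List ℕ × List (ℕ × ℕ)} {k : α → ℕ} (hx : Poly x) (hk : Poly k) :
    Poly (fun a => fin (x a) (k a)) := by
  unfold fin
  have h1 : Poly (fun a => (x a).1) := Poly.fst hx
  obtain ⟨p, hp⟩ := h1.sz_le
  obtain ⟨q, hq⟩ := (p_ents h1 hk).sz_le
  refine Poly.foldl (F := fun a S _ => lstep (x a).2 (ents (x a).1 (k a)) S) h1 (by fun_prop) ?_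
    (p * (p + q + 1) + 1) ?_
  · fun_prop
  · intro a m _
    rw [foldl_iter]
    obtain ⟨h2, h3⟩ := bd_iter (E := (x a).2) (bd_start (x a).1 (k a)) ((x a).1.take m).length
    have hs := sz_le_length_mul ((lstep (x a).2 (ents (x a).1 (k a)))^[((x a).1.take m).length]
      (start (x a).1 (k a))) (sz (x a).1 + sz (ents (x a).1 (k a))) (by
        intro b hb
        obtain ⟨h4, h5⟩ := h3 b hb
        have h6 : sz b.1 < sz (x a).1 := sz_le_of_mem h4
        rw [show sz b = sz (b.1, b.2) from rfl, sz_pair]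
        omega)
    refine hs.trans ?_
    have e1 := length_lt_sz (x a).1
    have e2 := hp a
    have e3 := hq a
    simp only [Polynomial.eval_add, Polynomial.eval_mul, Polynomial.eval_one]
    exact Nat.add_le_add_right (Nat.mul_le_mul (by omega) (by omega)) 1

@[fun_prop]
theorem p_feas {x : α → List ℕ × List (ℕ × ℕ)} {k : α → ℕ} (hx : Poly x) (hk : Poly k) :
    Poly (fun a => feas (x a) (k a)) := by
  unfold feas
  fun_prop

theorem p_omT : Poly omT := by
  unfold omT
  fun_prop

/-- **Trees**: the minimum label sum is computed in polynomial time. -/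
theorem tree_poly : ∃ g : List Bool → List Bool, PolyTime g ∧
    ∀ x : List ℕ × List (ℕ × ℕ), (cG x).IsTree → Nice (cG x) →
      ∃ n : ℕ, mE (cG x) = (n : ℕ∞) ∧ g (bits x) = bits n := by
  refine ⟨fun y => bits (((unbits (List ℕ × List (ℕ × ℕ)) y).map omT).getD 0), ?_, ?_⟩
  · have h := poly_unbits (α := List ℕ × List (ℕ × ℕ))
    have h1 := p_omT
    refine polyTime_bits ?_
    have := Poly.optElim (o := fun y => unbits (List ℕ × List (ℕ × ℕ)) y) (g := fun _ => (0 : ℕ))
      (h := fun _ x => omT x) h (Poly.const 0) (h1.comp (Poly.snd Poly.id))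
    refine this.congr ?_
    intro y
    cases unbits (List ℕ × List (ℕ × ℕ)) y <;> rfl
  · intro x ht hn
    refine ⟨omT x, omT_eq ht hn, ?_⟩
    simp only [unbits_bits, Option.map_some, Option.getD_some]

end Pool.Agent.NPC.Q224MS
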